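import Mathlib
import Pool.Graph.R_pool_sql_team_seeded_1acbe0a2.Y691.Df

/-!
# Sums over the prime powers with Frobenius in a union of divisions: definitions

`K` is a number field, `M/K` a finite Galois extension with group `G`, `X` a smooth projective variety
over `K` of dimension `2i + 1`.  See `Pool.Agent.Y691` for `IsFrobenius` (the eigenvalues of the
geometric Frobenius on `H^{2i+1}(X)`, described by point counts), `Unramified` and `SameDiv` (`σ` and `τ`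
are in the same division of `G`: they generate conjugate subgroups).
-/

set_option autoImplicit false

namespace Pool.Agent.H81.FC

open NumberField IsDedekindDomain Polynomial Filter
open Pool.Agent.Y691 (IsFrobenius)

section
variable {K : Type} [Field K] {n : ℕ}

/-- `Λ` is a continuation of `L(H^{2i+1}(X_F), s)` from `Re s > i + 3/2` which is meromorphic in the
half-plane `Re s > i + 1` and at the central point `i + 1`.  The polynomial `B v` gives the Euler factor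
`1 / B_v(q_v^{-s})`: it is `∏ (1 - α_j z)` for almost all primes `v` of `F`; at the other primes `B v` is an
arbitrary polynomial, and no Euler factor has a pole with `Re s ≥ i + 1`. -/
def IsLFunction (X : Set (MvPolynomial (Fin n) (𝓞 K))) (i N : ℕ) (F : Type) [Field F]
    [NumberField F] [Algebra K F] (Λ : ℂ → ℂ) : Prop :=
  (∀ s : ℂ, i + 1 < s.re ∨ s = i + 1 → MeromorphicAt Λ s) ∧
  ∃ B : HeightOneSpectrum (𝓞 F) → ℂ[X],
    (∀ᶠ v in cofinite, ∃ α : Fin N → ℂ, IsFrobenius X i v α ∧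
      ∀ z : ℂ, (B v).eval z = ∏ j, (1 - α j * z)) ∧
    (∀ v (s : ℂ), i + 1 ≤ s.re → (B v).eval ((Ideal.absNorm v.asIdeal : ℂ) ^ (-s)) ≠ 0) ∧
    ∀ s : ℂ, i + 3 / 2 < s.re →
      Λ s = ∏' v : HeightOneSpectrum (𝓞 F), ((B v).eval ((Ideal.absNorm v.asIdeal : ℂ) ^ (-s)))⁻¹

end

/-- `Λ` has no zeros and no poles with `Re s > i + 1`. -/
def Free (i : ℕ) (Λ : ℂ → ℂ) : Prop := ∀ s : ℂ, i + 1 < s.re → meromorphicOrderAt Λ s = 0

/-- `Λ` has no real poles `x > i + 1`. -/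
def NoRealPoles (i : ℕ) (Λ : ℂ → ℂ) : Prop :=
  ∀ x : ℝ, i + 1 < x → 0 ≤ meromorphicOrderAt Λ (x : ℂ)

/-- `Λ` has no real zeros `x > i + 1`. -/
def NoRealZeros (i : ℕ) (Λ : ℂ → ℂ) : Prop :=
  ∀ x : ℝ, i + 1 < x → meromorphicOrderAt Λ (x : ℂ) ≤ 0

section
variable {K M : Type} [Field K] [NumberField K] [Field M] [NumberField M] [Algebra K M] {J : Type}

/-- `|G|⁻¹ ∑ χ(τ)`, over the `τ ∈ G` with `t(τ) = j`. -/
noncomputable def blockMean {G : Type} (t : G → J) (χ : G → ℚ) (j : J) : ℚ :=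
  (∑ᶠ τ ∈ {τ : G | t τ = j}, χ τ) / Nat.card G

/-- The number of the embeddings of `F` in `M` over `K` which are fixed by `σ`, that is, of the fixed
cosets of `Gal(M/F)`, depends only on `t(σ)`. -/
def Visible (t : Gal(M/K) → J) (F : IntermediateField K M) : Prop :=
  ∀ σ τ : Gal(M/K), t σ = t τ →
    Nat.card {c : Gal(M/K) ⧸ F.fixingSubgroup // σ • c = c} =
      Nat.card {c : Gal(M/K) ⧸ F.fixingSubgroup // τ • c = c}

/-- `t(Frob_v^k) = j`, for a Frobenius element at a prime of `M` above `v`. -/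
def FrobPow (t : Gal(M/K) → J) (j : J) (v : HeightOneSpectrum (𝓞 K)) (k : ℕ) : Prop :=
  ∃ (Q : Ideal (𝓞 M)) (φ : Gal(M/K)), Q.IsPrime ∧
    Q.comap (algebraMap (𝓞 K) (𝓞 M)) = v.asIdeal ∧
    (∀ y : 𝓞 M, φ • y - y ^ Ideal.absNorm v.asIdeal ∈ Q) ∧ t (φ ^ k) = j

open Classical in
/-- `A_j(y) = ∑ tr(Frob_v^k | H^{2i+1}(X)) / (k q_v^{k(i+1)})`, the sum over the prime powers
`q_v^k ≤ y`, `v ∉ S`, with `t(Frob_v^k) = j`; here `v = x.1` and `k = x.2 + 1`. -/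
noncomputable def blockSum {N : ℕ} (S : Finset (HeightOneSpectrum (𝓞 K)))
    (α : HeightOneSpectrum (𝓞 K) → Fin N → ℂ) (i : ℕ) (t : Gal(M/K) → J) (j : J) (y : ℝ) : ℝ :=
  ∑' x : HeightOneSpectrum (𝓞 K) × ℕ,
    if x.1 ∉ S ∧ (Ideal.absNorm x.1.asIdeal : ℝ) ^ (x.2 + 1) ≤ y ∧ FrobPow t j x.1 (x.2 + 1) then
      (∑ l, α x.1 l ^ (x.2 + 1)).re /
        ((x.2 + 1) * (Ideal.absNorm x.1.asIdeal : ℝ) ^ ((x.2 + 1) * (i + 1)))
    else 0

variable {n : ℕ}

/-- Every `L`-function of `H^{2i+1}(X)` over a visible field has no zeros and no poles with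
`Re s > i + 1`. -/
def AllFree (X : Set (MvPolynomial (Fin n) (𝓞 K))) (i N : ℕ) (t : Gal(M/K) → J) : Prop :=
  ∀ (F : IntermediateField K M) (Λ : ℂ → ℂ), Visible t F → IsLFunction X i N F Λ → Free i Λ

/-- Over every visible field `F` the order of the `L`-function at `i + 1` is the dimension of the space
of the vectors of `V` which are fixed by `Gal(M/F)`. -/
def AllEqual (X : Set (MvPolynomial (Fin n) (𝓞 K))) (i N : ℕ) (t : Gal(M/K) → J) {V : Type}
    [AddCommGroup V] [Module ℚ V] (ρ : Representation ℚ Gal(M/K) V) : Prop :=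
  ∀ (F : IntermediateField K M) (Λ : ℂ → ℂ), Visible t F → IsLFunction X i N F Λ →
    meromorphicOrderAt Λ (i + 1) =
      (Module.finrank ℚ (Representation.invariants (ρ.comp F.fixingSubgroup.subtype)) : ℤ)

end

/-- `A(y) ≥ -κ log log y - C` for all `y` in the window `[Y^(1-δ), Y]`, for arbitrarily large `Y`, for
some `0 < δ < 1` and `C`. -/
def BoundedBelow (A : ℝ → ℝ) (κ : ℝ) : Prop :=
  ∃ δ C : ℝ, 0 < δ ∧ δ < 1 ∧ ∃ᶠ Y : ℝ in atTop, ∀ y : ℝ, Y ^ (1 - δ) ≤ y → y ≤ Y →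
    -κ * Real.log (Real.log y) - C ≤ A y

/-- `A(y) ≤ -κ log log y + C` for all `y` in the window `[Y^(1-δ), Y]`, for arbitrarily large `Y`, for
some `0 < δ < 1` and `C`. -/
def BoundedAbove (A : ℝ → ℝ) (κ : ℝ) : Prop :=
  ∃ δ C : ℝ, 0 < δ ∧ δ < 1 ∧ ∃ᶠ Y : ℝ in atTop, ∀ y : ℝ, Y ^ (1 - δ) ≤ y → y ≤ Y →
    A y ≤ -κ * Real.log (Real.log y) + C

/-- For all `0 < δ < 1` and `C` every window `[Y^(1-δ), Y]` with `Y` large contains a `y` with
`A(y) < -κ log log y - C`. -/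
def Drops (A : ℝ → ℝ) (κ : ℝ) : Prop :=
  ∀ δ C : ℝ, 0 < δ → δ < 1 → ∀ᶠ Y : ℝ in atTop, ∃ y : ℝ, Y ^ (1 - δ) ≤ y ∧ y ≤ Y ∧
    A y < -κ * Real.log (Real.log y) - C

/-- For all `0 < δ < 1` and `C` every window `[Y^(1-δ), Y]` with `Y` large contains a `y` with
`A(y) > -κ log log y + C`. -/
def Rises (A : ℝ → ℝ) (κ : ℝ) : Prop :=
  ∀ δ C : ℝ, 0 < δ → δ < 1 → ∀ᶠ Y : ℝ in atTop, ∃ y : ℝ, Y ^ (1 - δ) ≤ y ∧ y ≤ Y ∧
    -κ * Real.log (Real.log y) + C < A y

end Pool.Agent.H81.FC
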