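import Mathlib
import Pool.Graph.R_pool_sql_team_seeded_2aa45f1a.Q18.W.Main

/-! Functions given by general Dirichlet series: products, powers, and the orders. -/

set_option autoImplicit false

open Complex MeasureTheory Set Filter Topology
open Pool.Agent.W189.TP (DS)
open Pool.Agent.TH949.TX (AA)

namespace Pool.Agent.H81.FC

variable {ι : Type} {d d' L : ι → ℝ} {Ψ Ψ' : ℂ → ℂ}

/-- `Ψ = exp (∑ d_i e^{-s L_i})` for `Re s > 1`, meromorphic for `Re s > 0` and at `0` -/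
structure Gd (d L : ι → ℝ) (Ψ : ℂ → ℂ) : Prop where
  cnt : Countable ι
  hL : ∀ i, 0 ≤ L i
  abs : ∀ t : ℝ, 1 < t → Summable fun i => |d i| * Real.exp (-(t * L i))
  exp : ∀ s : ℂ, 1 < s.re → Ψ s = cexp (DS d L s)
  mer : ∀ s : ℂ, 0 < s.re → MeromorphicAt Ψ s
  mer0 : MeromorphicAt Ψ 0

/-- the half-plane `Re s > 0` and the point `0` -/
def Rg (s : ℂ) : Prop := 0 < s.re ∨ s = 0

theorem Rg.pos {s : ℂ} (h : 0 < s.re) : Rg s := Or.inl h

theorem Rg.zero : Rg 0 := Or.inr rfl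

namespace Gd

theorem merOn (H : Gd d L Ψ) : MeromorphicOn Ψ {s : ℂ | 0 < s.re} := fun s hs => H.mer s hs

theorem merAt (H : Gd d L Ψ) {s : ℂ} (hs : Rg s) : MeromorphicAt Ψ s := by
  rcases hs with h | h
  · exact H.mer s h
  · rw [h]; exact H.mer0

theorem ne_top (H : Gd d L Ψ) {s : ℂ} (hs : Rg s) : meromorphicOrderAt Ψ s ≠ ⊤ := by
  have := H.cnt
  obtain ⟨η, hη, hS, -⟩ := Pool.Agent.Q18.W.nbhd H.hL H.abs H.exp H.merOn H.mer0
  refine Pool.Agent.Q18.W.order_ne_top hS.conn hS.mer hS.hL hS.abs hS.exp (s1 := 2) (by norm_num)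
    (Or.inl (show 0 < (2 : ℂ).re by norm_num)) ?_
  rcases hs with h | h
  · exact Or.inl h
  · rw [h]; exact Or.inr (Metric.mem_ball_self hη)

theorem coe_ord (H : Gd d L Ψ) {s : ℂ} (hs : Rg s) :
    meromorphicOrderAt Ψ s = ((meromorphicOrderAt Ψ s).untop₀ : WithTop ℤ) :=
  (WithTop.coe_untop₀_of_ne_top (H.ne_top hs)).symm

theorem summ (H : Gd d L Ψ) {s : ℂ} (hs : 1 < s.re) :
    Summable fun i => (d i : ℂ) * cexp (-(s * L i)) := by
  refine Summable.of_norm ?_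
  refine (H.abs s.re hs).congr fun i => ?_
  rw [Pool.Agent.W189.TP.norm_term]

theorem mul (H : Gd d L Ψ) (H' : Gd d' L Ψ') : Gd (fun i => d i + d' i) L (Ψ * Ψ') := by
  refine ⟨H.cnt, H.hL, fun t ht => ?_, fun s hs => ?_, fun s hs => (H.mer s hs).mul (H'.mer s hs),
    H.mer0.mul H'.mer0⟩
  · refine Summable.of_nonneg_of_le (fun i => by positivity) (fun i => ?_)
      ((H.abs t ht).add (H'.abs t ht))
    rw [← add_mul]
    exact mul_le_mul_of_nonneg_right (abs_add_le _ _) (Real.exp_pos _).le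
  · rw [Pi.mul_apply, H.exp s hs, H'.exp s hs, ← Complex.exp_add]
    congr 1
    unfold DS
    rw [← (H.summ hs).tsum_add (H'.summ hs)]
    refine tsum_congr fun i => ?_
    push_cast
    ring

theorem inv (H : Gd d L Ψ) : Gd (fun i => -d i) L Ψ⁻¹ := by
  obtain ⟨h1, h2, -⟩ := Pool.Agent.Q18.W.inv_data H.hL H.abs H.exp
  exact ⟨H.cnt, H.hL, h1, h2, fun s hs => (H.mer s hs).inv, H.mer0.inv⟩

theorem congr (H : Gd d L Ψ) (h : ∀ i, d i = d' i) : Gd d' L Ψ := by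
  have : d = d' := funext h
  rwa [← this]

theorem zpow (H : Gd d L Ψ) (n : ℤ) : Gd (fun i => n * d i) L (Ψ ^ n) := by
  refine ⟨H.cnt, H.hL, fun t ht => ?_, fun s hs => ?_, fun s hs => (H.mer s hs).zpow n,
    H.mer0.zpow n⟩
  · refine ((H.abs t ht).mul_left |(n : ℝ)|).congr fun i => ?_
    rw [abs_mul, mul_assoc]
  · rw [Pi.pow_apply, H.exp s hs, ← Complex.exp_int_mul]
    congr 1
    unfold DS
    rw [← tsum_mul_left]
    refine tsum_congr fun i => ?_
    push_cast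
    ring

theorem one (hc : Countable ι) (hL : ∀ i, 0 ≤ L i) : Gd (fun _ => 0) L (fun _ => 1) := by
  refine ⟨hc, hL, fun t ht => ?_, fun s hs => ?_, fun s hs => MeromorphicAt.const _ _,
    MeromorphicAt.const _ _⟩
  · simpa using summable_zero
  · unfold DS
    simp

theorem unique (H : Gd d L Ψ) (H' : Gd d L Ψ') {s : ℂ} (hs : Rg s) :
    meromorphicOrderAt Ψ s = meromorphicOrderAt Ψ' s := by
  have := H.cnt
  obtain ⟨η, hη, hS, -⟩ := Pool.Agent.Q18.W.nbhd H.hL H.abs H.exp H.merOn H.mer0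
  obtain ⟨η', hη', hS', -⟩ := Pool.Agent.Q18.W.nbhd H'.hL H'.abs H'.exp H'.merOn H'.mer0
  set V : Set ℂ := {s : ℂ | 0 < s.re} ∪ Metric.ball 0 (min η η') with hV
  have hV1 : V ⊆ {s : ℂ | 0 < s.re} ∪ Metric.ball 0 η :=
    Set.union_subset_union_right _ (Metric.ball_subset_ball (min_le_left _ _))
  have hV2 : V ⊆ {s : ℂ | 0 < s.re} ∪ Metric.ball 0 η' :=
    Set.union_subset_union_right _ (Metric.ball_subset_ball (min_le_right _ _))
  have hconn : IsPreconnected V := by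
    rcases le_total η η' with h | h
    · rw [hV, min_eq_left h]
      exact hS.conn
    · rw [hV, min_eq_right h]
      exact hS'.conn
  have hmer : MeromorphicOn (Ψ - Ψ') V := (hS.mer.mono_set hV1).sub (hS'.mer.mono_set hV2)
  have h2V : (2 : ℂ) ∈ V := Or.inl (show 0 < (2 : ℂ).re by norm_num)
  have hsV : s ∈ V := by
    rcases hs with h | h
    · exact Or.inl h
    · rw [h]; exact Or.inr (Metric.mem_ball_self (lt_min hη hη'))
  have htop : meromorphicOrderAt (Ψ - Ψ') 2 = ⊤ := by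
    rw [meromorphicOrderAt_eq_top_iff]
    have hop : IsOpen {s : ℂ | 1 < s.re} := isOpen_lt continuous_const Complex.continuous_re
    have h3 : ∀ᶠ z in 𝓝 (2 : ℂ), 1 < z.re := hop.mem_nhds (show 1 < (2 : ℂ).re by norm_num)
    filter_upwards [h3.filter_mono nhdsWithin_le_nhds] with z hz
    rw [Pi.sub_apply, H.exp z hz, H'.exp z hz, sub_self]
  have hall : meromorphicOrderAt (Ψ - Ψ') s = ⊤ := by
    by_contra h
    exact MeromorphicOn.meromorphicOrderAt_ne_top_of_isPreconnected hmer hconn hsV h2V h htop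
  rw [meromorphicOrderAt_eq_top_iff] at hall
  refine meromorphicOrderAt_congr ?_
  filter_upwards [hall] with z hz
  rw [Pi.sub_apply, sub_eq_zero] at hz
  exact hz

end Gd

/-- the order as a rational number -/
noncomputable def oq (Ψ : ℂ → ℂ) (s : ℂ) : ℚ := ((meromorphicOrderAt Ψ s).untop₀ : ℚ)

theorem oq_mul (H : Gd d L Ψ) (H' : Gd d' L Ψ') {s : ℂ} (hs : Rg s) :
    oq (Ψ * Ψ') s = oq Ψ s + oq Ψ' s := by
  unfold oq
  rw [meromorphicOrderAt_mul (H.merAt hs) (H'.merAt hs), H.coe_ord hs, H'.coe_ord hs]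
  norm_cast

theorem oq_zpow (H : Gd d L Ψ) (n : ℤ) {s : ℂ} (hs : Rg s) : oq (Ψ ^ n) s = n * oq Ψ s := by
  unfold oq
  rw [meromorphicOrderAt_zpow (H.merAt hs), H.coe_ord hs]
  norm_cast

theorem oq_inv (Ψ : ℂ → ℂ) (s : ℂ) : oq Ψ⁻¹ s = -oq Ψ s := by
  unfold oq
  rw [meromorphicOrderAt_inv]
  rcases hh : meromorphicOrderAt Ψ s with _ | n
  · change (((-(⊤ : WithTop ℤ)).untop₀ : ℤ) : ℚ) = -(((⊤ : WithTop ℤ).untop₀ : ℤ) : ℚ)
    simp
  · change (((-n : ℤ) : ℤ) : ℚ) = -((n : ℤ) : ℚ)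
    push_cast
    ring

theorem oq_one (s : ℂ) : oq (fun _ => 1) s = 0 := by
  have h : meromorphicOrderAt (fun _ : ℂ => (1 : ℂ)) s = 0 := by
    have h1 : AnalyticAt ℂ (fun _ : ℂ => (1 : ℂ)) s := analyticAt_const
    rw [h1.meromorphicOrderAt_eq, h1.analyticOrderAt_eq_zero.2 one_ne_zero]
    simp
  unfold oq
  rw [h]
  simp

theorem oq_eq_zero (H : Gd d L Ψ) {s : ℂ} (hs : Rg s) : oq Ψ s = 0 ↔ meromorphicOrderAt Ψ s = 0 := by
  constructor
  · intro h
    rw [H.coe_ord hs]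
    unfold oq at h
    have : (meromorphicOrderAt Ψ s).untop₀ = 0 := by exact_mod_cast h
    rw [this]
    rfl
  · intro h
    unfold oq
    rw [h]
    simp

theorem oq_neg (H : Gd d L Ψ) {s : ℂ} (hs : Rg s) : oq Ψ s < 0 ↔ meromorphicOrderAt Ψ s < 0 := by
  rw [H.coe_ord hs]
  unfold oq
  constructor
  · intro h
    have : (meromorphicOrderAt Ψ s).untop₀ < 0 := by exact_mod_cast h
    exact_mod_cast this
  · intro h
    have : (meromorphicOrderAt Ψ s).untop₀ < 0 := by exact_mod_cast h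
    exact_mod_cast this

/-! ### functions on a set of values -/

section
variable {G : Type} {c : ι → ℝ} {φ : ι → G} {f g : G → ℚ} {m m' : ℂ → ℚ}

/-- the coefficients attached to `f` -/
noncomputable def cf (c : ι → ℝ) (φ : ι → G) (f : G → ℚ) (i : ι) : ℝ := (f (φ i) : ℝ) * c i

/-- `m s` is the order at `s` of the function attached to `f` -/
def HasOrd (c L : ι → ℝ) (φ : ι → G) (f : G → ℚ) (m : ℂ → ℚ) : Prop :=
  ∃ (N : ℕ) (Ψ : ℂ → ℂ), 0 < N ∧ Gd (fun i => N * cf c φ f i) L Ψ ∧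
    ∀ s, Rg s → oq Ψ s = N * m s

theorem HasOrd.unique (h : HasOrd c L φ f m) (h' : HasOrd c L φ f m') {s : ℂ} (hs : Rg s) :
    m s = m' s := by
  obtain ⟨N, Ψ, hN, H, ho⟩ := h
  obtain ⟨N', Ψ', hN', H', ho'⟩ := h'
  have h1 : Gd (fun i => ((N' * N : ℕ) : ℝ) * cf c φ f i) L (Ψ ^ (N' : ℤ)) :=
    (H.zpow N').congr fun i => by push_cast; ring
  have h2 : Gd (fun i => ((N' * N : ℕ) : ℝ) * cf c φ f i) L (Ψ' ^ (N : ℤ)) :=
    (H'.zpow N).congr fun i => by push_cast; ring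
  have h3 : oq (Ψ ^ (N' : ℤ)) s = oq (Ψ' ^ (N : ℤ)) s := by
    unfold oq
    rw [h1.unique h2 hs]
  rw [oq_zpow H _ hs, oq_zpow H' _ hs, ho s hs, ho' s hs] at h3
  push_cast at h3
  have hN0 : (N : ℚ) ≠ 0 := by exact_mod_cast hN.ne'
  have hN0' : (N' : ℚ) ≠ 0 := by exact_mod_cast hN'.ne'
  have h4 : ((N : ℚ) * N') * m s = (N * N') * m' s := by linarith
  exact mul_left_cancel₀ (mul_ne_zero hN0 hN0') h4

theorem HasOrd.add (h : HasOrd c L φ f m) (h' : HasOrd c L φ g m') :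
    HasOrd c L φ (f + g) (fun s => m s + m' s) := by
  obtain ⟨N, Ψ, hN, H, ho⟩ := h
  obtain ⟨N', Ψ', hN', H', ho'⟩ := h'
  refine ⟨N * N', Ψ ^ (N' : ℤ) * Ψ' ^ (N : ℤ), Nat.mul_pos hN hN',
    ((H.zpow N').mul (H'.zpow N)).congr fun i => ?_, fun s hs => ?_⟩
  · unfold cf
    rw [Pi.add_apply]
    push_cast
    ring
  · rw [oq_mul (H.zpow N') (H'.zpow N) hs, oq_zpow H _ hs, oq_zpow H' _ hs, ho s hs, ho' s hs]
    push_cast
    ring

theorem HasOrd.smul (h : HasOrd c L φ f m) (r : ℚ) : HasOrd c L φ (r • f) (fun s => r * m s) := by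
  obtain ⟨N, Ψ, hN, H, ho⟩ := h
  have hr : (r.den : ℚ) * r = r.num := by rw [mul_comm]; exact Rat.mul_den_eq_num r
  have hr' : (r.den : ℝ) * (r : ℝ) = (r.num : ℝ) := by exact_mod_cast hr
  refine ⟨N * r.den, Ψ ^ r.num, Nat.mul_pos hN r.den_pos, (H.zpow r.num).congr fun i => ?_,
    fun s hs => ?_⟩
  · unfold cf
    rw [Pi.smul_apply, smul_eq_mul]
    push_cast
    rw [← hr']
    ring
  · rw [oq_zpow H _ hs, ho s hs, ← hr]
    push_cast
    ring

theorem HasOrd.zero (hc : Countable ι) (hL : ∀ i, 0 ≤ L i) :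
    HasOrd c L φ (0 : G → ℚ) (fun _ => 0) := by
  refine ⟨1, fun _ => 1, one_pos, (Gd.one hc hL).congr fun i => ?_, fun s hs => ?_⟩
  · unfold cf
    simp
  · rw [oq_one]
    simp

theorem HasOrd.congr (h : HasOrd c L φ f m) (hm : ∀ s, Rg s → m s = m' s) : HasOrd c L φ f m' := by
  obtain ⟨N, Ψ, hN, H, ho⟩ := h
  exact ⟨N, Ψ, hN, H, fun s hs => by rw [ho s hs, hm s hs]⟩

theorem HasOrd.neg (h : HasOrd c L φ f m) : HasOrd (fun i => -c i) L φ f (fun s => -m s) := by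
  obtain ⟨N, Ψ, hN, H, ho⟩ := h
  refine ⟨N, Ψ⁻¹, hN, H.inv.congr fun i => ?_, fun s hs => ?_⟩
  · unfold cf
    ring
  · rw [oq_inv, ho s hs]
    ring

theorem HasOrd.sum (hc : Countable ι) (hL : ∀ i, 0 ≤ L i) {J : Type} (s : Finset J)
    (F : J → G → ℚ) (M : J → ℂ → ℚ) (h : ∀ j ∈ s, HasOrd c L φ (F j) (M j)) :
    HasOrd c L φ (∑ j ∈ s, F j) (fun z => ∑ j ∈ s, M j z) := by
  classical
  induction s using Finset.induction_on with
  | empty =>
    simp only [Finset.sum_empty]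
    exact HasOrd.zero hc hL
  | insert a s ha ih =>
    rw [Finset.sum_insert ha]
    have h1 := (h a (Finset.mem_insert_self a s)).add (ih fun j hj => h j (Finset.mem_insert_of_mem hj))
    refine h1.congr fun z _ => ?_
    rw [Finset.sum_insert ha]

end

end Pool.Agent.H81.FC
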