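import Mathlib
import Pool.Agent.H81.FC.Gd

/-! One-sided bounds in windows for a finite family of functions with a given sum. -/

set_option autoImplicit false

open Complex MeasureTheory Set Filter Topology
open Pool.Agent.W189.TP (DS)
open Pool.Agent.TH949.TX (AA)

namespace Pool.Agent.H81.FC

variable {ι : Type} {L : ι → ℝ}

theorem AA_smul (d : ι → ℝ) (r u : ℝ) : AA (fun i => r * d i) L u = r * AA d L u := by
  classical
  unfold AA
  rw [← tsum_mul_left]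
  refine tsum_congr fun i => ?_
  by_cases h : L i ≤ u <;> simp [h]

theorem AA_neg (d : ι → ℝ) (u : ℝ) : AA (fun i => -d i) L u = -AA d L u := by
  have h := AA_smul (L := L) d (-1) u
  rw [neg_one_mul] at h
  rw [← h]
  congr 1
  funext i
  ring

section
variable {G : Type} {c : ι → ℝ} {φ : ι → G} {f g : G → ℚ} {m m' : ℂ → ℚ}

/-- `A_f(u) ≥ -κ log u - C` in one sequence of windows -/
def Low (c L : ι → ℝ) (φ : ι → G) (f : G → ℚ) (κ : ℝ) : Prop :=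
  ∃ δ C : ℝ, 0 < δ ∧ δ < 1 ∧ ∃ᶠ U : ℝ in atTop, ∀ u : ℝ, (1 - δ) * U ≤ u → u ≤ U →
    -(κ * Real.log u + C) ≤ AA (cf c φ f) L u

/-- `A_f(u) ≤ -κ log u + C` in one sequence of windows -/
def Upp (c L : ι → ℝ) (φ : ι → G) (f : G → ℚ) (κ : ℝ) : Prop :=
  ∃ δ C : ℝ, 0 < δ ∧ δ < 1 ∧ ∃ᶠ U : ℝ in atTop, ∀ u : ℝ, (1 - δ) * U ≤ u → u ≤ U →
    AA (cf c φ f) L u ≤ -(κ * Real.log u) + C

theorem Upp.low {κ : ℝ} (h : Upp c L φ f κ) : Low (fun i => -c i) L φ f (-κ) := by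
  obtain ⟨δ, C, h0, h1, hw⟩ := h
  refine ⟨δ, C, h0, h1, hw.mono fun U hU u a b => ?_⟩
  have e : cf (fun i => -c i) φ f = fun i => -cf c φ f i := by
    funext i
    unfold cf
    ring
  rw [e, AA_neg]
  have := hU u a b
  linarith

theorem low_scale {N : ℕ} {κ C δ : ℝ} {d : ι → ℝ}
    (h : ∃ᶠ U : ℝ in atTop, ∀ u : ℝ, (1 - δ) * U ≤ u → u ≤ U → -(κ * Real.log u + C) ≤ AA d L u) :
    ∃ᶠ U : ℝ in atTop, ∀ u : ℝ, (1 - δ) * U ≤ u → u ≤ U →
      -((N * κ) * Real.log u + N * C) ≤ AA (fun i => N * d i) L u := by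
  refine h.mono fun U hU u a b => ?_
  rw [AA_smul]
  have h1 := mul_le_mul_of_nonneg_left (hU u a b) (Nat.cast_nonneg (α := ℝ) N)
  linarith

/-- the supremum of the real parts of the zeros and poles is a real pole -/
theorem HasOrd.sup_pole (h : HasOrd c L φ f m) {κ : ℝ} (hw : Low c L φ f κ) {ρ : ℂ}
    (hρ : 0 < ρ.re) (hne : m ρ ≠ 0) :
    ∃ b : ℝ, 0 < b ∧ m (b : ℂ) < 0 ∧ ∀ ρ' : ℂ, 0 < ρ'.re → m ρ' ≠ 0 → ρ'.re ≤ b := by
  obtain ⟨N, Ψ, hN, H, ho⟩ := h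
  obtain ⟨δ, C, h0, h1, hw⟩ := hw
  have := H.cnt
  have hNq : (0 : ℚ) < N := by exact_mod_cast hN
  have hord : ∀ s : ℂ, 0 < s.re → m s ≠ 0 → meromorphicOrderAt Ψ s ≠ 0 := by
    intro s hs hm h2
    rw [← oq_eq_zero H (Rg.pos hs), ho s (Rg.pos hs)] at h2
    exact hm ((mul_eq_zero.1 h2).resolve_left hNq.ne')
  obtain ⟨b, hb1, hb2, hb3⟩ := Pool.Agent.Q18.W.sup_pole H.hL H.abs H.exp H.merOn h0 h1
    (g := fun u => N * κ * Real.log u + N * C) (fun c hc => Pool.Agent.Q18.W.log_le_exp _ _ hc)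
    (low_scale hw) hρ (hord ρ hρ hne)
  refine ⟨b, hb1, ?_, fun ρ' h2 h3 => hb3 ρ' (hord ρ' h2 h3)⟩
  have hb : Rg (b : ℂ) := Rg.pos (by rw [Complex.ofReal_re]; exact hb1)
  rw [← oq_neg H hb, ho _ hb] at hb2
  by_contra h4
  push Not at h4
  have := mul_nonneg hNq.le h4
  linarith

/-- the order at `0` -/
theorem HasOrd.rank_le (h : HasOrd c L φ f m) {κ : ℝ} (hw : Low c L φ f κ)
    (hz : ∀ s : ℂ, 0 < s.re → m s = 0) : (m 0 : ℝ) ≤ κ := by
  obtain ⟨N, Ψ, hN, H, ho⟩ := h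
  obtain ⟨δ, C, h0, h1, hw⟩ := hw
  have := H.cnt
  have hNr : (0 : ℝ) < N := by exact_mod_cast hN
  have h2 := Pool.Agent.Q18.W.rank_up H.hL H.abs H.exp H.merOn H.mer0 (fun ρ hρ => by
    rw [← oq_eq_zero H (Rg.pos hρ), ho ρ (Rg.pos hρ), hz ρ hρ, mul_zero]) h0 h1
    (low_scale (N := N) hw)
  have h3 := ho 0 Rg.zero
  unfold oq at h3
  have h4 : (((meromorphicOrderAt Ψ 0).untop₀ : ℤ) : ℝ) = N * (m 0 : ℝ) := by exact_mod_cast h3
  rw [h4] at h2
  exact le_of_mul_le_mul_left h2 hNr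

/-- **One-sided bounds.** If the functions of a finite family satisfy one-sided bounds in windows, and
the sum of the orders is nonnegative at the real points, then there are no zeros and poles. -/
theorem below {J : Type} [Fintype J] {F : J → G → ℚ} {M : J → ℂ → ℚ}
    (h : ∀ j, HasOrd c L φ (F j) (M j)) (hpos : ∀ x : ℝ, 0 < x → 0 ≤ ∑ j, M j (x : ℂ))
    {κ : J → ℝ} (hw : ∀ j, Low c L φ (F j) (κ j)) :
    (∀ j (s : ℂ), 0 < s.re → M j s = 0) ∧ ∀ j, (M j 0 : ℝ) ≤ κ j := by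
  classical
  have key : ∀ j (s : ℂ), 0 < s.re → M j s = 0 := by
    by_contra hcon
    push Not at hcon
    obtain ⟨j₀, ρ₀, hρ₀, hne₀⟩ := hcon
    set T : Finset J := Finset.univ.filter fun j => ∃ s : ℂ, 0 < s.re ∧ M j s ≠ 0 with hT
    have hTne : T.Nonempty := ⟨j₀, by rw [hT, Finset.mem_filter]; exact ⟨Finset.mem_univ _, ρ₀, hρ₀, hne₀⟩⟩
    have hb : ∀ j : J, ∃ b : ℝ, j ∈ T → (0 < b ∧ M j (b : ℂ) < 0 ∧
        ∀ ρ' : ℂ, 0 < ρ'.re → M j ρ' ≠ 0 → ρ'.re ≤ b) := by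
      intro j
      by_cases hj : j ∈ T
      · rw [hT, Finset.mem_filter] at hj
        obtain ⟨-, ρ, hρ, hne⟩ := hj
        obtain ⟨b, h1⟩ := (h j).sup_pole (hw j) hρ hne
        exact ⟨b, fun _ => h1⟩
      · exact ⟨0, fun h => absurd h hj⟩
    choose b hb using hb
    obtain ⟨j₁, hj₁, hmax⟩ := T.exists_max_image b hTne
    have hb1 := (hb j₁ hj₁).1
    have h1 := hpos (b j₁) hb1
    have h2 : ∑ j, M j (b j₁ : ℂ) < 0 := by
      refine Finset.sum_neg' (fun j _ => ?_) ⟨j₁, Finset.mem_univ _, (hb j₁ hj₁).2.1⟩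
      by_cases hj : j ∈ T
      · by_cases h3 : M j (b j₁ : ℂ) = 0
        · exact h3.le
        · have h4 := (hb j hj).2.2 (b j₁ : ℂ) (by rw [Complex.ofReal_re]; exact hb1) h3
          rw [Complex.ofReal_re] at h4
          have h5 : b j₁ = b j := le_antisymm h4 (hmax j hj)
          rw [h5]
          exact (hb j hj).2.1.le
      · rw [hT, Finset.mem_filter, not_and] at hj
        have h3 := hj (Finset.mem_univ j)
        push Not at h3
        rw [h3 (b j₁ : ℂ) (by rw [Complex.ofReal_re]; exact hb1)]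
    linarith
  exact ⟨key, fun j => (h j).rank_le (hw j) (key j)⟩

/-- **One-sided bounds from above.** -/
theorem above {J : Type} [Fintype J] {F : J → G → ℚ} {M : J → ℂ → ℚ}
    (h : ∀ j, HasOrd c L φ (F j) (M j)) (hpos : ∀ x : ℝ, 0 < x → ∑ j, M j (x : ℂ) ≤ 0)
    {κ : J → ℝ} (hw : ∀ j, Upp c L φ (F j) (κ j)) :
    (∀ j (s : ℂ), 0 < s.re → M j s = 0) ∧ ∀ j, κ j ≤ (M j 0 : ℝ) := by
  have h1 := below (fun j => (h j).neg) (fun x hx => by
    have := hpos x hx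
    rw [Finset.sum_neg_distrib]
    linarith) (fun j => (hw j).low)
  refine ⟨fun j s hs => ?_, fun j => ?_⟩
  · have := h1.1 j s hs
    linarith
  · have := h1.2 j
    push_cast at this
    linarith

/-- **Two-sided bounds**, for one function. -/
theorem HasOrd.two (h : HasOrd c L φ f m) {κ κ' : ℝ} (hw : Low c L φ f κ) (hw' : Upp c L φ f κ') :
    (∀ s : ℂ, 0 < s.re → m s = 0) ∧ (m 0 : ℝ) ≤ κ ∧ κ' ≤ (m 0 : ℝ) := by
  have key : ∀ s : ℂ, 0 < s.re → m s = 0 := by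
    intro s hs
    by_contra hne
    obtain ⟨b, hb1, hb2, hb3⟩ := h.sup_pole hw hs hne
    obtain ⟨b', hb1', hb2', hb3'⟩ := h.neg.sup_pole hw'.low hs (neg_ne_zero.2 hne)
    have e1 := hb3 (b' : ℂ) (by rw [Complex.ofReal_re]; exact hb1') (fun h0 => by
      rw [h0] at hb2'
      simp at hb2')
    have e2 := hb3' (b : ℂ) (by rw [Complex.ofReal_re]; exact hb1) (neg_ne_zero.2 hb2.ne)
    rw [Complex.ofReal_re] at e1 e2
    have e3 : b = b' := le_antisymm e2 e1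
    rw [← e3] at hb2'
    linarith
  refine ⟨key, h.rank_le hw key, ?_⟩
  have h1 := h.neg.rank_le hw'.low (fun s hs => by rw [key s hs, neg_zero])
  push_cast at h1
  linarith

end

end Pool.Agent.H81.FC
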