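import Mathlib
import Pool.Agent.H81.FC.Win
import Pool.Graph.R_pool_sql_team_seeded_1acbe0a2.Y691.Art2

/-! Unions of divisions of a finite group. -/

set_option autoImplicit false
set_option linter.unusedSectionVars false

open Complex MeasureTheory Set Filter Topology
open Pool.Agent.Y691 (pc Dv ind decomp pc_ne_zero dimInv dimInv_eq trace_conj mean_eq pc_dv)

namespace Pool.Agent.H81.FC

variable {ι : Type} {L : ι → ℝ} {G : Type} [Group G] [Fintype G] {c : ι → ℝ} {φ : ι → G}
  {f : G → ℚ} {m : ℂ → ℚ}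

/-- functions which are constant on divisions -/
def DC (f : G → ℚ) : Prop := ∀ g x, Dv g x → f g = f x

open Classical in
/-- the number of the elements of a division -/
noncomputable def dn (g : G) : ℕ := (Finset.univ.filter fun x : G => Dv g x).card

theorem dn_pos (g : G) : 0 < dn g := by
  classical
  exact Finset.card_pos.2 ⟨g, Finset.mem_filter.2 ⟨Finset.mem_univ _, Dv.refl g⟩⟩

theorem dn_dv {g x : G} (h : Dv g x) : dn g = dn x := by
  classical
  unfold dn
  congr 1
  exact Finset.filter_congr fun z _ => ⟨fun h4 => h.symm.trans h4, fun h4 => h.trans h4⟩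

theorem ind_dv {g x : G} (h : Dv g x) : ind g = ind x := by
  classical
  funext z
  unfold ind
  by_cases h6 : Dv g z
  · rw [if_pos h6, if_pos (h.symm.trans h6)]
  · rw [if_neg h6, if_neg fun h7 => h6 (h.trans h7)]

/-- a function which is constant on divisions is a combination of the indicator functions -/
theorem DC.eq_sum (hf : DC f) : f = ∑ x : G, (f x / dn x) • ind x := by
  classical
  funext z
  rw [decomp f hf Finset.univ (fun x _ => ⟨x, Finset.mem_univ _, Dv.refl x⟩) z, Finset.sum_apply]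
  refine Finset.sum_congr rfl fun x _ => ?_
  rw [Pi.smul_apply, smul_eq_mul]
  rfl

theorem dc_pc (H : Subgroup G) : DC fun x => (pc H x : ℚ) := by
  intro g x h
  have := pc_dv H h
  show (pc H g : ℚ) = (pc H x : ℚ)
  rw [this]

/-- the span of the permutation characters of the cyclic subgroups -/
noncomputable def CS (G : Type) [Group G] : Submodule ℚ (G → ℚ) :=
  Submodule.span ℚ (Set.range fun (g : G) (x : G) => (pc (Subgroup.zpowers g) x : ℚ))

theorem pc_mem_cs (g : G) : (fun x : G => (pc (Subgroup.zpowers g) x : ℚ)) ∈ CS G :=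
  Submodule.subset_span ⟨g, rfl⟩

/-- the indicator function of a division is a combination of the permutation characters of cyclic
subgroups (Artin) -/
theorem ind_mem_cs (g : G) : ind g ∈ CS G := by
  classical
  obtain ⟨n, hn⟩ : ∃ n, n = Nat.card (Subgroup.zpowers g) := ⟨_, rfl⟩
  induction n using Nat.strong_induction_on generalizing g with
  | _ n ih =>
    set s : Finset G := Finset.univ.filter fun c => c ∈ Subgroup.zpowers g with hs
    have hgs : g ∈ s := Finset.mem_filter.2 ⟨Finset.mem_univ _, Subgroup.mem_zpowers g⟩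
    have h1 := decomp (fun x => (pc (Subgroup.zpowers g) x : ℚ))
      (fun a b h => by
        have := pc_dv (Subgroup.zpowers g) h
        exact_mod_cast this) s (by
        intro x hx
        have hx' : pc (Subgroup.zpowers g) x ≠ 0 := by exact_mod_cast hx
        obtain ⟨y, hy⟩ := pc_ne_zero.1 hx'
        refine ⟨y⁻¹ * x * y, Finset.mem_filter.2 ⟨Finset.mem_univ _, hy⟩, ⟨y⁻¹, ?_⟩⟩
        rw [inv_inv])
    set a : G → ℚ := fun c => (pc (Subgroup.zpowers g) c : ℚ) /
      ((s.filter fun c' => Dv c c').card : ℚ) with ha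
    have h2 : (fun x => (pc (Subgroup.zpowers g) x : ℚ)) = ∑ c ∈ s, a c • ind c := by
      funext x
      rw [Finset.sum_apply]
      exact h1 x
    -- the part of the division of `g`
    have h3 : ∑ c ∈ s, a c • ind c = (pc (Subgroup.zpowers g) g : ℚ) • ind g +
        ∑ c ∈ s.filter (fun c => ¬ Dv g c), a c • ind c := by
      rw [← Finset.sum_filter_add_sum_filter_not s (fun c => Dv g c)]
      congr 1
      have e1 : ∀ c ∈ s.filter (fun c => Dv g c), a c • ind c =
          ((pc (Subgroup.zpowers g) g : ℚ) / ((s.filter fun c' => Dv g c').card : ℚ)) • ind g := by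
        intro c hc
        have h4 : Dv g c := (Finset.mem_filter.1 hc).2
        have h6 : (s.filter fun c' => Dv c c') = s.filter fun c' => Dv g c' :=
          Finset.filter_congr fun z _ => ⟨fun h7 => h4.trans h7, fun h7 => h4.symm.trans h7⟩
        rw [ha]
        simp only
        rw [← ind_dv h4, h6, pc_dv (Subgroup.zpowers g) h4]
      rw [Finset.sum_congr rfl e1, Finset.sum_const, ← Nat.cast_smul_eq_nsmul ℚ, smul_smul,
        mul_div_cancel₀]
      have : 0 < (s.filter fun c' => Dv g c').card :=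
        Finset.card_pos.2 ⟨g, Finset.mem_filter.2 ⟨hgs, Dv.refl g⟩⟩
      exact_mod_cast this.ne'
    have h4 : ∑ c ∈ s.filter (fun c => ¬ Dv g c), a c • ind c ∈ CS G := by
      refine Submodule.sum_mem _ fun c hc => Submodule.smul_mem _ _ ?_
      obtain ⟨hc1, hc2⟩ := Finset.mem_filter.1 hc
      have hc3 : c ∈ Subgroup.zpowers g := (Finset.mem_filter.1 hc1).2
      refine ih (Nat.card (Subgroup.zpowers c)) ?_ c rfl
      rw [hn]
      have hle : Subgroup.zpowers c ≤ Subgroup.zpowers g := by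
        rw [Subgroup.zpowers_le]
        exact hc3
      refine lt_of_le_of_ne (Subgroup.card_le_of_le hle) fun h5 => hc2 ⟨1, ?_⟩
      have h6 := Subgroup.eq_of_le_of_card_ge hle h5.ge
      simpa using h6
    have h5 : (pc (Subgroup.zpowers g) g : ℚ) • ind g ∈ CS G := by
      have h6 : (pc (Subgroup.zpowers g) g : ℚ) • ind g =
          (fun x => (pc (Subgroup.zpowers g) x : ℚ)) -
            ∑ c ∈ s.filter (fun c => ¬ Dv g c), a c • ind c := by
        rw [h2, h3, add_sub_cancel_right]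
      rw [h6]
      exact Submodule.sub_mem _ (pc_mem_cs _) h4
    have h6 : (pc (Subgroup.zpowers g) g : ℚ) ≠ 0 := by
      have : pc (Subgroup.zpowers g) g ≠ 0 := pc_ne_zero.2 ⟨1, by
        rw [inv_one, one_mul, mul_one]
        exact Subgroup.mem_zpowers g⟩
      exact_mod_cast this
    exact (Submodule.smul_mem_iff _ h6).1 h5

theorem cs_ord (hc : Countable ι) (hL : ∀ i, 0 ≤ L i)
    (hM : ∀ g : G, ∃ m, HasOrd c L φ (fun x => (pc (Subgroup.zpowers g) x : ℚ)) m)
    (hf : f ∈ CS G) : ∃ m, HasOrd c L φ f m := by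
  unfold CS at hf
  induction hf using Submodule.span_induction with
  | mem x h =>
    obtain ⟨g, rfl⟩ := h
    exact hM g
  | zero => exact ⟨_, HasOrd.zero hc hL⟩
  | add x y _ _ hx hy =>
    obtain ⟨m1, h1⟩ := hx
    obtain ⟨m2, h2⟩ := hy
    exact ⟨_, h1.add h2⟩
  | smul r x _ hx =>
    obtain ⟨m1, h1⟩ := hx
    exact ⟨_, h1.smul r⟩

section
variable {J : Type} [Fintype J] (t : G → J)

open Classical in
/-- the indicator function of a block -/
noncomputable def bl (t : G → J) (j : J) (x : G) : ℚ := if t x = j then 1 else 0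

open Classical in
/-- `|G|⁻¹ ∑ χ(x)` over a block -/
noncomputable def bm (t : G → J) (χ : G → ℚ) (j : J) : ℚ :=
  (Nat.card G : ℚ)⁻¹ * ∑ x, if t x = j then χ x else 0

/-- the permutation character is constant on the blocks -/
def Vis (t : G → J) (H : Subgroup G) : Prop := ∀ x y, t x = t y → pc H x = pc H y

variable {t}

theorem dc_bl (ht : ∀ x y, Dv x y → t x = t y) (j : J) : DC (bl t j) := by
  intro g x h
  unfold bl
  rw [ht g x h]

theorem sum_bl (x : G) : ∑ j, bl t j x = 1 := by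
  classical
  unfold bl
  rw [Finset.sum_ite_eq]
  simp

theorem pc_top (x : G) : pc (⊤ : Subgroup G) x = 1 := by
  unfold pc
  rw [Nat.card_eq_one_iff_exists]
  have hs : Subsingleton (G ⧸ (⊤ : Subgroup G)) := QuotientGroup.subsingleton_quotient_top
  exact ⟨⟨QuotientGroup.mk 1, Subsingleton.elim _ _⟩, fun y => Subtype.ext (Subsingleton.elim _ _)⟩

open Classical in
/-- the value of a permutation character on a block -/
noncomputable def pv (t : G → J) (H : Subgroup G) (j : J) : ℚ :=
  if h : ∃ x, t x = j then (pc H h.choose : ℚ) else 0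

theorem pv_eq {H : Subgroup G} (hv : Vis t H) (x : G) : (pc H x : ℚ) = pv t H (t x) := by
  unfold pv
  have h : ∃ y, t y = t x := ⟨x, rfl⟩
  rw [dif_pos h]
  have := hv x h.choose h.choose_spec.symm
  exact_mod_cast this

theorem vis_sum {H : Subgroup G} (hv : Vis t H) :
    (fun x => (pc H x : ℚ)) = ∑ j, pv t H j • bl t j := by
  classical
  funext x
  rw [Finset.sum_apply, pv_eq hv]
  simp only [Pi.smul_apply, smul_eq_mul, bl, mul_ite, mul_one, mul_zero]
  rw [Finset.sum_ite_eq]
  simp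

/-- the mean of a function with a permutation character -/
theorem vis_mean {H : Subgroup G} (hv : Vis t H) (χ : G → ℚ) :
    (Nat.card G : ℚ)⁻¹ * ∑ x : G, (pc H x : ℚ) * χ x = ∑ j, pv t H j * bm t χ j := by
  classical
  have e1 : ∀ x : G, (pc H x : ℚ) * χ x = ∑ j, pv t H j * (if t x = j then χ x else 0) := by
    intro x
    rw [pv_eq hv]
    simp only [mul_ite, mul_zero]
    rw [Finset.sum_ite_eq]
    simp
  rw [Finset.sum_congr rfl fun x _ => e1 x, Finset.sum_comm, Finset.mul_sum]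
  refine Finset.sum_congr rfl fun j _ => ?_
  unfold bm
  rw [← Finset.mul_sum]
  ring

theorem bm_sum (χ : G → ℚ) : ∑ j, bm t χ j = (Nat.card G : ℚ)⁻¹ * ∑ x : G, χ x := by
  classical
  unfold bm
  rw [← Finset.mul_sum, Finset.sum_comm]
  congr 1
  refine Finset.sum_congr rfl fun x _ => ?_
  rw [Finset.sum_ite_eq]
  simp

end

/-- **The main theorem for unions of divisions.** -/
theorem abs_main (hc : Countable ι) (hL : ∀ i, 0 ≤ L i)
    (hM : ∀ g : G, ∃ m, HasOrd c L φ (fun x => (pc (Subgroup.zpowers g) x : ℚ)) m) {m₀ : ℂ → ℚ}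
    (hM₀ : HasOrd c L φ (fun x => (pc (⊤ : Subgroup G) x : ℚ)) m₀) :
    ∃ χ : G → ℚ, (∀ x y, Dv x y → χ x = χ y) ∧
      (∀ (H : Subgroup G) (m : ℂ → ℚ), HasOrd c L φ (fun x => (pc H x : ℚ)) m →
        m 0 = (Nat.card G : ℚ)⁻¹ * ∑ x : G, (pc H x : ℚ) * χ x) ∧
      ∀ (J : Type) [Fintype J] (t : G → J), (∀ x y, Dv x y → t x = t y) → ∀ κ : J → ℝ,
        ((∀ x : ℝ, 0 < x → 0 ≤ m₀ (x : ℂ)) → (∀ j, Low c L φ (bl t j) (κ j)) →
          (∀ (H : Subgroup G) (m : ℂ → ℚ), Vis t H → HasOrd c L φ (fun x => (pc H x : ℚ)) m →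
            ∀ s : ℂ, 0 < s.re → m s = 0) ∧ ∀ j, (bm t χ j : ℝ) ≤ κ j) ∧
        ((∀ x : ℝ, 0 < x → m₀ (x : ℂ) ≤ 0) → (∀ j, Upp c L φ (bl t j) (κ j)) →
          (∀ (H : Subgroup G) (m : ℂ → ℚ), Vis t H → HasOrd c L φ (fun x => (pc H x : ℚ)) m →
            ∀ s : ℂ, 0 < s.re → m s = 0) ∧ ∀ j, κ j ≤ (bm t χ j : ℝ)) ∧
        ∀ κ' : J → ℝ, (∀ j, Low c L φ (bl t j) (κ j)) → (∀ j, Upp c L φ (bl t j) (κ' j)) →
          (∀ (H : Subgroup G) (m : ℂ → ℚ), Vis t H → HasOrd c L φ (fun x => (pc H x : ℚ)) m →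
            ∀ s : ℂ, 0 < s.re → m s = 0) ∧
            ∀ j, (bm t χ j : ℝ) ≤ κ j ∧ κ' j ≤ (bm t χ j : ℝ) := by
  classical
  have hind : ∀ g : G, ∃ m, HasOrd c L φ (ind g) m := fun g => cs_ord hc hL hM (ind_mem_cs g)
  choose mi hmi using hind
  have hG : (Nat.card G : ℚ) ≠ 0 := by
    have : 0 < Nat.card G := Nat.card_pos
    exact_mod_cast this.ne'
  -- the orders of a function constant on divisions
  have hdc : ∀ f : G → ℚ, DC f → HasOrd c L φ f (fun s => ∑ x : G, f x / dn x * mi x s) := by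
    intro f hf
    have h1 := HasOrd.sum hc hL Finset.univ (fun x : G => (f x / dn x) • ind x)
      (fun x s => f x / dn x * mi x s) (fun x _ => (hmi x).smul (f x / dn x))
    rw [← hf.eq_sum] at h1
    exact h1
  set χ : G → ℚ := fun x => Nat.card G * (mi x 0 / dn x) with hχ
  have hχ0 : ∀ (f : G → ℚ) (m : ℂ → ℚ), DC f → HasOrd c L φ f m →
      m 0 = (Nat.card G : ℚ)⁻¹ * ∑ x, f x * χ x := by
    intro f m hf h
    rw [h.unique (hdc f hf) Rg.zero, Finset.mul_sum]
    refine Finset.sum_congr rfl fun x _ => ?_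
    rw [hχ]
    field_simp
  refine ⟨χ, fun x y h => ?_, fun H m hm => hχ0 _ _ (dc_pc H) hm, fun J _ t ht κ => ?_⟩
  · rw [hχ]
    simp only
    rw [dn_dv h]
    have h1 : HasOrd c L φ (ind y) (mi x) := by
      rw [← ind_dv h]
      exact hmi x
    rw [h1.unique (hmi y) Rg.zero]
  · -- the blocks
    have hbl : ∀ j, ∃ m, HasOrd c L φ (bl t j) m := fun j => ⟨_, hdc _ (dc_bl ht j)⟩
    choose mb hmb using hbl
    have hbm : ∀ j, mb j 0 = bm t χ j := by
      intro j
      rw [hχ0 _ _ (dc_bl ht j) (hmb j)]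
      unfold bm bl
      congr 1
      refine Finset.sum_congr rfl fun x _ => ?_
      split_ifs <;> simp
    have hvis : ∀ (H : Subgroup G) (m : ℂ → ℚ), Vis t H →
        HasOrd c L φ (fun x => (pc H x : ℚ)) m → ∀ s, Rg s → m s = ∑ j, pv t H j * mb j s := by
      intro H m hv hm s hs
      have h1 := HasOrd.sum hc hL Finset.univ (fun j : J => pv t H j • bl t j)
        (fun j s => pv t H j * mb j s) (fun j _ => (hmb j).smul (pv t H j))
      rw [← vis_sum hv] at h1
      exact hm.unique h1 hs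
    have htop : ∀ s, Rg s → ∑ j, mb j s = m₀ s := by
      intro s hs
      have h1 := HasOrd.sum hc hL Finset.univ (fun j : J => bl t j) mb (fun j _ => hmb j)
      have h2 : ∑ j, bl t j = fun x => (pc (⊤ : Subgroup G) x : ℚ) := by
        funext x
        rw [Finset.sum_apply, sum_bl, pc_top]
        simp
      rw [h2] at h1
      exact h1.unique hM₀ hs
    have hfin : (∀ j (s : ℂ), 0 < s.re → mb j s = 0) →
        ∀ (H : Subgroup G) (m : ℂ → ℚ), Vis t H → HasOrd c L φ (fun x => (pc H x : ℚ)) m →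
          ∀ s : ℂ, 0 < s.re → m s = 0 := by
      intro hz H m hv hm s hs
      rw [hvis H m hv hm s (Rg.pos hs)]
      exact Finset.sum_eq_zero fun j _ => by rw [hz j s hs, mul_zero]
    have hre : ∀ x : ℝ, 0 < x → Rg (x : ℂ) := fun x hx =>
      Rg.pos (by rw [Complex.ofReal_re]; exact hx)
    refine ⟨fun hp hw => ?_, fun hp hw => ?_, fun κ' hw hw' => ?_⟩
    · obtain ⟨h1, h2⟩ := below hmb (fun x hx => by rw [htop _ (hre x hx)]; exact hp x hx) hw
      exact ⟨hfin h1, fun j => by rw [← hbm]; exact h2 j⟩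
    · obtain ⟨h1, h2⟩ := above hmb (fun x hx => by rw [htop _ (hre x hx)]; exact hp x hx) hw
      exact ⟨hfin h1, fun j => by rw [← hbm]; exact h2 j⟩
    · have h1 := fun j => (hmb j).two (hw j) (hw' j)
      refine ⟨hfin fun j => (h1 j).1, fun j => ?_⟩
      rw [← hbm]
      exact ⟨(h1 j).2.1, (h1 j).2.2⟩

/-- from bounds on the blocks to the equality for all visible subgroups -/
theorem eq_of_le {J : Type} [Fintype J] {t : G → J} {χ ψ : G → ℚ}
    (h : ∀ j, bm t χ j ≤ bm t ψ j)
    (hs : (Nat.card G : ℚ)⁻¹ * ∑ x : G, ψ x ≤ (Nat.card G : ℚ)⁻¹ * ∑ x : G, χ x) {H : Subgroup G}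
    (hv : Vis t H) : (Nat.card G : ℚ)⁻¹ * ∑ x : G, (pc H x : ℚ) * χ x =
      (Nat.card G : ℚ)⁻¹ * ∑ x : G, (pc H x : ℚ) * ψ x := by
  rw [← bm_sum (t := t), ← bm_sum (t := t)] at hs
  have h1 : ∀ j ∈ (Finset.univ : Finset J), bm t χ j = bm t ψ j := by
    have h2 := Finset.sum_le_sum fun j (_ : j ∈ (Finset.univ : Finset J)) => h j
    exact (Finset.sum_eq_sum_iff_of_le fun j _ => h j).1 (le_antisymm h2 hs)
  rw [vis_mean hv, vis_mean hv]
  exact Finset.sum_congr rfl fun j hj => by rw [h1 j hj]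

theorem dimInv_mean {V : Type} [AddCommGroup V] [Module ℚ V] [FiniteDimensional ℚ V]
    (ρ : Representation ℚ G V) (H : Subgroup G) : (dimInv ρ H : ℚ) =
      (Nat.card G : ℚ)⁻¹ * ∑ x : G, (pc H x : ℚ) * LinearMap.trace ℚ V (ρ x) := by
  classical
  rw [dimInv_eq, ← mean_eq H (fun x => LinearMap.trace ℚ V (ρ x)) (fun x y => trace_conj ρ x y),
    finsum_eq_sum_of_fintype]

end Pool.Agent.H81.FC
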