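import Mathlib
import Pool.Agent.H81.FC.Grp
import Pool.Agent.H81.FC.Df
import Pool.Graph.R_pool_sql_team_seeded_1acbe0a2.Y691.Mn

/-! The Dirichlet series of the intermediate fields over the primes of the base field. -/

set_option autoImplicit false
set_option linter.unusedSectionVars false

namespace Pool.Agent.H81.FC

open Complex Filter Topology NumberField IsDedekindDomain Polynomial Set
open Pool.Agent.W189.ML Pool.Agent.W189.LC
open Pool.Agent.W189.TP (DS)
open Pool.Agent.TH949.TX (AA)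
open Pool.Agent.Y691 (EV cv up fd nv rq rq_eq two_le_rq rq_pos one_le_fd jx jx_inj pc Dv IsFr Unr
  card_fix fin_below fd_pos aK aK_mem aK_notMem evK IsFrobenius frob_up frob_unique Unramified
  exists_isFr two_le_nv SameDiv frobIn_iff eq_of_unr frob_im)

section
variable {K : Type} [Field K] [NumberField K] {N : ℕ} {c : ℝ}

/-- a term of the Dirichlet series -/
noncomputable def tw {L : Type} [Field L] [NumberField L]
    (a : HeightOneSpectrum (𝓞 L) → Fin N → ℂ) (c : ℝ) (w : ℂ) (x : HeightOneSpectrum (𝓞 L) × ℕ) : ℂ :=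
  (cv rq a c x : ℂ) * exp (-(w * fr rq x))

variable {F : Type} [Field F] [NumberField F] [Algebra K F]

/-- the terms over the extension field in terms of the base field -/
theorem tw_up (a : HeightOneSpectrum (𝓞 K) → Fin N → ℂ) (c : ℝ) (s : ℂ)
    (x : HeightOneSpectrum (𝓞 F) × ℕ) :
    tw (up F a) c s x = (fd K x.1 : ℂ) *
      tw a c s (x.1.under (𝓞 K), fd K x.1 * (x.2 + 1) - 1) := by
  obtain ⟨w, k⟩ := x
  have e1 := one_le_fd (K := K) w k
  have hf : fr rq (w, k) = fr rq (w.under (𝓞 K), fd K w * (k + 1) - 1) := by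
    unfold fr
    simp only
    rw [rq_eq (K := K), Real.log_pow, Nat.cast_sub e1]
    push_cast
    ring
  have hc : cv rq (up F a) c (w, k) = (fd K w : ℝ) *
      cv rq a c (w.under (𝓞 K), fd K w * (k + 1) - 1) := by
    unfold cv
    simp only
    rw [Nat.sub_add_cancel e1]
    have h1 : ∑ j, up F a w j ^ (k + 1) = ∑ j, a (w.under (𝓞 K)) j ^ (fd K w * (k + 1)) :=
      Finset.sum_congr rfl fun j _ => by
        unfold up
        rw [pow_mul]
    have h2 : (rq w ^ c) ^ (k + 1) = (rq (w.under (𝓞 K)) ^ c) ^ (fd K w * (k + 1)) := by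
      rw [pow_mul, rq_eq (K := K)]
      congr 1
      rw [← Real.rpow_natCast, ← Real.rpow_natCast, ← Real.rpow_mul (rq_pos _).le,
        ← Real.rpow_mul (rq_pos _).le, mul_comm]
    rw [h1, h2, Nat.cast_sub e1]
    have h3 : (fd K w : ℝ) ≠ 0 := by
      have := fd_pos (K := K) w
      exact_mod_cast this.ne'
    have h4 : ((k : ℝ) + 1) ≠ 0 := by positivity
    have h5 : (rq (w.under (𝓞 K)) ^ c) ^ (fd K w * (k + 1)) ≠ 0 :=
      pow_ne_zero _ (Real.rpow_pos_of_pos (rq_pos _) _).ne'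
    push_cast
    rw [sub_add_cancel]
    field_simp
  unfold tw
  rw [hf, hc]
  push_cast
  ring

open Classical in
/-- **regrouping the terms by the primes of the base field** -/
theorem regroup {a : HeightOneSpectrum (𝓞 K) → Fin N → ℂ} (E : EV rq a c) {s : ℂ}
    (hs : 1 / 2 < s.re) [∀ v : HeightOneSpectrum (𝓞 K),
      Fintype {w : HeightOneSpectrum (𝓞 F) // w.under (𝓞 K) = v}] :
    HasSum (fun y : HeightOneSpectrum (𝓞 K) × ℕ =>
      ((∑ w : {w : HeightOneSpectrum (𝓞 F) // w.under (𝓞 K) = y.1},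
        if fd K w.1 ∣ y.2 + 1 then fd K w.1 else 0 : ℕ) : ℂ) * tw a c s y)
      (DS (cv rq (up F a) c) (fr rq) s) := by
  have h1 : Summable (tw (up F a) c s) := E.up.csummable hs
  have h2 : HasSum (tw (up F a) c s) (DS (cv rq (up F a) c) (fr rq) s) := h1.hasSum
  set A : HeightOneSpectrum (𝓞 F) × ℕ → ℂ := fun x =>
    if fd K x.1 ∣ x.2 + 1 then (fd K x.1 : ℂ) * tw a c s (x.1.under (𝓞 K), x.2) else 0 with hA
  have h3 : A ∘ jx K = tw (up F a) c s := by
    funext x
    have e1 := one_le_fd (K := K) x.1 x.2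
    rw [Function.comp_apply, hA, tw_up]
    unfold jx
    simp only
    rw [Nat.sub_add_cancel e1, if_pos (dvd_mul_right _ _)]
  have h4 : ∀ x ∉ Set.range (jx K (F := F)), A x = 0 := by
    intro x hx
    rw [hA]
    simp only
    rw [if_neg]
    rintro ⟨k, hk⟩
    apply hx
    have hk0 : k ≠ 0 := by
      rintro rfl
      simp at hk
    refine ⟨(x.1, k - 1), ?_⟩
    unfold jx
    simp only
    rw [Nat.sub_add_cancel (Nat.one_le_iff_ne_zero.2 hk0), ← hk]
    simp
  rw [← h3, Function.Injective.hasSum_iff jx_inj h4] at h2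
  -- now group by the prime below
  have h5 := h2.tsum_fiberwise (fun x : HeightOneSpectrum (𝓞 F) × ℕ =>
    ((x.1.under (𝓞 K), x.2) : HeightOneSpectrum (𝓞 K) × ℕ))
  have h6 : (fun y : HeightOneSpectrum (𝓞 K) × ℕ =>
      ((∑ w : {w : HeightOneSpectrum (𝓞 F) // w.under (𝓞 K) = y.1},
        if fd K w.1 ∣ y.2 + 1 then fd K w.1 else 0 : ℕ) : ℂ) * tw a c s y) =
      fun y => ∑' b : ((fun x : HeightOneSpectrum (𝓞 F) × ℕ =>
        ((x.1.under (𝓞 K), x.2) : HeightOneSpectrum (𝓞 K) × ℕ)) ⁻¹' {y}), A b := by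
    funext y
    let e : {w : HeightOneSpectrum (𝓞 F) // w.under (𝓞 K) = y.1} ≃
        ((fun x : HeightOneSpectrum (𝓞 F) × ℕ =>
          ((x.1.under (𝓞 K), x.2) : HeightOneSpectrum (𝓞 K) × ℕ)) ⁻¹' {y}) :=
      { toFun := fun w => ⟨(w.1, y.2), by
          rw [Set.mem_preimage, Set.mem_singleton_iff, w.2]⟩
        invFun := fun b => ⟨b.1.1, by
          have := b.2
          rw [Set.mem_preimage, Set.mem_singleton_iff] at this
          exact congrArg Prod.fst this⟩
        left_inv := fun w => rfl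
        right_inv := fun b => by
          have := b.2
          rw [Set.mem_preimage, Set.mem_singleton_iff] at this
          apply Subtype.ext
          apply Prod.ext
          · rfl
          · exact (congrArg Prod.snd this).symm }
    rw [← e.tsum_eq, tsum_fintype]
    push_cast
    rw [Finset.sum_mul]
    refine Finset.sum_congr rfl fun w _ => ?_
    have h7 : A (e w) = if fd K w.1 ∣ y.2 + 1 then (fd K w.1 : ℂ) *
      tw a c s (w.1.under (𝓞 K), y.2) else 0 := rfl
    rw [h7, w.2]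
    split_ifs <;> simp
  rw [h6]
  exact h5

end

section
variable {K M : Type} [Field K] [NumberField K] [Field M] [NumberField M] [Algebra K M]
  [IsGalois K M] {N : ℕ} {c : ℝ}

/-- **the series of an intermediate field through the permutation character** -/
theorem ds_pc {a : HeightOneSpectrum (𝓞 K) → Fin N → ℂ} (E : EV rq a c)
    (F : IntermediateField K M) (Q : HeightOneSpectrum (𝓞 K) → Ideal (𝓞 M))
    (σ : HeightOneSpectrum (𝓞 K) → Gal(M/K)) {S : Finset (HeightOneSpectrum (𝓞 K))}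
    (hS : ∀ v ∈ S, ∀ j, a v j = 0) (hp : ∀ v, (Q v).IsPrime)
    (hQ : ∀ v, (Q v).comap (algebraMap (𝓞 K) (𝓞 M)) = v.asIdeal)
    (hσ : ∀ v, IsFr (nv v) (σ v) (Q v))
    (hu : ∀ v ∉ S, ∀ Q : Ideal (𝓞 M), Q.IsPrime →
      Q.comap (algebraMap (𝓞 K) (𝓞 M)) = v.asIdeal → Unr Q K) {s : ℂ} (hs : 1 / 2 < s.re) :
    HasSum (fun y : HeightOneSpectrum (𝓞 K) × ℕ =>
      (pc F.fixingSubgroup (σ y.1 ^ (y.2 + 1)) : ℂ) * tw a c s y)
      (DS (cv rq (up F a) c) (fr rq) s) := by
  classical
  have hfin : ∀ v : HeightOneSpectrum (𝓞 K),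
      Fintype {w : HeightOneSpectrum (𝓞 F) // w.under (𝓞 K) = v} := fun v =>
    Fintype.ofFinite _
  have h1 := regroup (F := F) E hs
  have h2 : (fun y : HeightOneSpectrum (𝓞 K) × ℕ =>
      (pc F.fixingSubgroup (σ y.1 ^ (y.2 + 1)) : ℂ) * tw a c s y) =
      fun y : HeightOneSpectrum (𝓞 K) × ℕ =>
      ((∑ w : {w : HeightOneSpectrum (𝓞 F) // w.under (𝓞 K) = y.1},
        if fd K w.1 ∣ y.2 + 1 then fd K w.1 else 0 : ℕ) : ℂ) * tw a c s y := by
    funext y
    by_cases hy : y.1 ∈ S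
    · have h3 : tw a c s y = 0 := by
        unfold tw cv
        have : ∑ j, a y.1 j ^ (y.2 + 1) = 0 :=
          Finset.sum_eq_zero fun j _ => by rw [hS y.1 hy j, zero_pow (Nat.succ_ne_zero _)]
        rw [this]
        simp
      rw [h3, mul_zero, mul_zero]
    · have := hp y.1
      have h3 := card_fix F (hQ y.1) (hu y.1 hy) (hσ y.1) (y.2 + 1)
      unfold pc
      rw [h3]
  rw [h2]
  exact h1

/-- the values of permutation characters are bounded -/
theorem pc_le {G : Type} [Group G] [Finite G] (H : Subgroup G) (x : G) : pc H x ≤ Nat.card G := by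
  have h1 : pc H x ≤ Nat.card (G ⧸ H) := by
    unfold pc
    exact Nat.card_le_card_of_injective (fun c : {c : G ⧸ H // x • c = c} => c.1)
      Subtype.val_injective
  refine h1.trans ?_
  exact Nat.card_le_card_of_surjective (QuotientGroup.mk : G → G ⧸ H) QuotientGroup.mk_surjective

end

section
variable {P : Type} {N : ℕ} {q : P → ℝ} {a : P → Fin N → ℂ} {c : ℝ}

theorem ord_shift (F : ℂ → ℂ) (c s : ℂ) :
    meromorphicOrderAt (fun s => F (c + s)) s = meromorphicOrderAt F (c + s) := by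
  have h1 : AnalyticAt ℂ (fun s : ℂ => c + s) s := by fun_prop
  have h2 : deriv (fun s : ℂ => c + s) s ≠ 0 := by simp
  exact meromorphicOrderAt_comp_of_deriv_ne_zero (f := F) h1 h2

/-- **the data of a continued Euler product** -/
theorem ev_gd [Countable P] (E : EV q a c) (B : P → ℂ[X]) {S : Finset P}
    (hB : ∀ p ∉ S, ∀ z : ℂ, (B p).eval z = ∏ j, (1 - a p j * z))
    (hB0 : ∀ p (s : ℂ), c ≤ s.re → (B p).eval ((q p : ℂ) ^ (-s)) ≠ 0) {F : ℂ → ℂ}
    (hm : ∀ s : ℂ, c < s.re ∨ s = c → MeromorphicAt F s)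
    (hF : ∀ s : ℂ, c + 1 / 2 < s.re → F s = ∏' p, ((B p).eval ((q p : ℂ) ^ (-s)))⁻¹) :
    ∃ Φ : ℂ → ℂ, Gd (cv q a c) (fr q) Φ ∧
      ∀ w : ℂ, Rg w → meromorphicOrderAt Φ w = meromorphicOrderAt F (c + w) := by
  classical
  have hq0 : ∀ p, 0 < q p := fun p => by linarith [E.two_le p]
  -- the finite factor
  set b : P → ℂ → ℂ := fun p w => (B p).eval ((q p : ℂ) ^ (-((c : ℂ) + w))) with hb
  set g : P → ℂ → ℂ := fun p w => ∏ j, (1 - a p j * (q p : ℂ) ^ (-((c : ℂ) + w)))⁻¹ with hg
  set R : ℂ → ℂ := fun w => ∏ p ∈ S, (b p w * g p w) with hR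
  have hane : ∀ w : ℂ, -(1 / 2) < w.re → ∀ p j, 1 - a p j * (q p : ℂ) ^ (-((c : ℂ) + w)) ≠ 0 := by
    intro w hw p j h
    rw [sub_eq_zero] at h
    have h1 : ‖a p j * (q p : ℂ) ^ (-((c : ℂ) + w))‖ < 1 := by
      rw [norm_mul, Complex.norm_cpow_eq_rpow_re_of_pos (hq0 p)]
      calc ‖a p j‖ * q p ^ (-((c : ℂ) + w)).re ≤
            q p ^ (c - 1 / 2) * q p ^ (-((c : ℂ) + w)).re := by
            have := (hq0 p).le
            gcongr
            exact E.bd p j
        _ = q p ^ (-(1 / 2 + w.re)) := by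
          rw [← Real.rpow_add (hq0 p)]
          congr 1
          simp
          ring
        _ < 1 := by
          apply Real.rpow_lt_one_of_one_lt_of_neg
          · linarith [E.two_le p]
          · linarith
    rw [← h] at h1
    simp at h1
  have hga : ∀ w : ℂ, -(1 / 2) < w.re → ∀ p, AnalyticAt ℂ (g p) w ∧ g p w ≠ 0 := by
    intro w hw p
    constructor
    · rw [hg]
      have h1 : ∀ j ∈ (Finset.univ : Finset (Fin N)), AnalyticAt ℂ
          (fun w : ℂ => (1 - a p j * (q p : ℂ) ^ (-((c : ℂ) + w)))⁻¹) w := by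
        intro j _
        exact (analyticAt_const.sub (analyticAt_const.mul
          (Pool.Agent.Y691.analytic_cpow (hq0 p) c w))).inv (hane w hw p j)
      have h2 := Finset.analyticAt_fun_prod _ h1
      exact h2
    · rw [hg]
      exact Finset.prod_ne_zero_iff.2 fun j _ => inv_ne_zero (hane w hw p j)
  have hba : ∀ w : ℂ, ∀ p, AnalyticAt ℂ (b p) w := fun w p =>
    Pool.Agent.Y691.analytic_poly (B p) (hq0 p) c w
  have hb0 : ∀ w : ℂ, 0 ≤ w.re → ∀ p, b p w ≠ 0 := by
    intro w hw p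
    refine hB0 p _ ?_
    rw [Complex.add_re, Complex.ofReal_re]
    linarith
  have hRa : ∀ w : ℂ, 0 ≤ w.re → AnalyticAt ℂ R w := by
    intro w hw
    rw [hR]
    exact Finset.analyticAt_fun_prod _ fun p _ => (hba w p).mul (hga w (by linarith) p).1
  have hR0 : ∀ w : ℂ, 0 ≤ w.re → R w ≠ 0 := by
    intro w hw
    rw [hR]
    exact Finset.prod_ne_zero_iff.2 fun p _ =>
      mul_ne_zero (hb0 w hw p) (hga w (by linarith) p).2
  -- the product formula
  have hprod : ∀ w : ℂ, 1 / 2 < w.re → F (c + w) * R w = exp (ser (fr q) (cv q a c) w) := by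
    intro w hw
    have h1 := E.hasProd hw
    have h2 : HasProd (fun p => if p ∈ S then (b p w)⁻¹ * (g p w)⁻¹ else 1)
        (∏ p ∈ S, (if p ∈ S then (b p w)⁻¹ * (g p w)⁻¹ else 1)) :=
      hasProd_prod_of_ne_finset_one fun p hp => by rw [if_neg hp]
    have h3 := h1.mul h2
    have h4 : (fun p => (∏ j, (1 - a p j * (q p : ℂ) ^ (-((c : ℂ) + w)))⁻¹) *
        (if p ∈ S then (b p w)⁻¹ * (g p w)⁻¹ else 1)) =
        fun p => ((B p).eval ((q p : ℂ) ^ (-((c : ℂ) + w))))⁻¹ := by
      funext p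
      split_ifs with h
      · have h5 : g p w ≠ 0 := (hga w (by linarith) p).2
        change g p w * ((b p w)⁻¹ * (g p w)⁻¹) = (b p w)⁻¹
        field_simp
      · rw [mul_one, hB p h, Finset.prod_inv_distrib]
    rw [h4] at h3
    have h5 := hF ((c : ℂ) + w) (by simp; linarith)
    rw [h3.tprod_eq] at h5
    rw [h5]
    have h6 : ∏ p ∈ S, (if p ∈ S then (b p w)⁻¹ * (g p w)⁻¹ else 1) = (R w)⁻¹ := by
      rw [hR, ← Finset.prod_inv_distrib]
      refine Finset.prod_congr rfl fun p hp => ?_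
      rw [if_pos hp, mul_inv]
    rw [h6, inv_mul_cancel_right₀ (hR0 w (by linarith))]
  have hFm : ∀ w : ℂ, Rg w → MeromorphicAt (fun w : ℂ => F ((c : ℂ) + w)) w := by
    intro w hw
    have h2 : MeromorphicAt F ((c : ℂ) + w) := by
      refine hm _ ?_
      rcases hw with h | h
      · left
        rw [Complex.add_re, Complex.ofReal_re]
        linarith
      · right
        rw [h, add_zero]
    exact h2.comp_analyticAt (g := fun w : ℂ => (c : ℂ) + w) (by fun_prop)
  have hre : ∀ w : ℂ, Rg w → 0 ≤ w.re := by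
    rintro w (h | h)
    · exact h.le
    · rw [h]; simp
  have hΦm : ∀ w : ℂ, Rg w → MeromorphicAt (fun w : ℂ => F ((c : ℂ) + w) * R w) w := fun w hw =>
    (hFm w hw).mul (hRa w (hre w hw)).meromorphicAt
  refine ⟨fun w => F ((c : ℂ) + w) * R w, ⟨inferInstance, E.fr_nonneg,
    fun t ht => E.summable (by linarith), fun w hw => ?_, fun w hw => hΦm w (Rg.pos hw),
    hΦm 0 Rg.zero⟩, fun w hw => ?_⟩
  · rw [hprod w (by linarith)]
    rfl
  · have h4 := hRa w (hre w hw)
    have h5 : meromorphicOrderAt (fun w : ℂ => F ((c : ℂ) + w) * R w) w =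
        meromorphicOrderAt (fun w : ℂ => F ((c : ℂ) + w)) w + meromorphicOrderAt R w :=
      meromorphicOrderAt_mul (hFm w hw) h4.meromorphicAt
    rw [h5, h4.meromorphicOrderAt_eq, h4.analyticOrderAt_eq_zero.2 (hR0 w (hre w hw)),
      ord_shift]
    simp

end

end Pool.Agent.H81.FC
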