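import Mathlib
import Pool.Agent.H81.FC.Ar

/-! The main theorem. -/

set_option autoImplicit false
set_option linter.unusedSectionVars false

namespace Pool.Agent.H81.FC

open Complex Filter Topology NumberField IsDedekindDomain Polynomial Set
open Pool.Agent.W189.ML Pool.Agent.W189.LC
open Pool.Agent.W189.TP (DS)
open Pool.Agent.TH949.TX (AA)
open Pool.Agent.Y691 (EV cv up fd nv rq rq_eq two_le_rq rq_pos one_le_fd jx jx_inj pc Dv IsFr Unr
  card_fix fin_below fd_pos aK aK_mem aK_notMem evK IsFrobenius frob_up frob_unique Unramified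
  exists_isFr two_le_nv SameDiv frobIn_iff eq_of_unr frob_im dimInv)
open scoped Pointwise

section
variable {K M : Type} [Field K] [NumberField K] [Field M] [NumberField M] [Algebra K M]
  [IsGalois K M] {n : ℕ} {X : Set (MvPolynomial (Fin n) (𝓞 K))} {i N : ℕ}
  {S : Finset (HeightOneSpectrum (𝓞 K))} {α : HeightOneSpectrum (𝓞 K) → Fin N → ℂ}

/-- the power of the Frobenius element -/
def fpow (σ : HeightOneSpectrum (𝓞 K) → Gal(M/K)) (y : HeightOneSpectrum (𝓞 K) × ℕ) : Gal(M/K) :=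
  σ y.1 ^ (y.2 + 1)

/-- the orders of the function attached to a permutation character -/
theorem ord_field (hα : ∀ v ∉ S, IsFrobenius X i v (α v)) (hS : ∀ v ∉ S, Unramified M v)
    (F : IntermediateField K M) {Λ : ℂ → ℂ} (hΛ : IsLFunction X i N F Λ)
    (Q : HeightOneSpectrum (𝓞 K) → Ideal (𝓞 M)) (σ : HeightOneSpectrum (𝓞 K) → Gal(M/K))
    (hp : ∀ v, (Q v).IsPrime)
    (hQ : ∀ v, (Q v).comap (algebraMap (𝓞 K) (𝓞 M)) = v.asIdeal)
    (hσ : ∀ v, IsFr (nv v) (σ v) (Q v)) :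
    HasOrd (cv rq (aK S α) ((i : ℝ) + 1)) (fr rq) (fpow σ)
      (fun x => (pc F.fixingSubgroup x : ℚ)) (fun w => oq Λ ((i : ℂ) + 1 + w)) ∧
    ∀ w, Rg w → meromorphicOrderAt Λ ((i : ℂ) + 1 + w) ≠ ⊤ := by
  classical
  obtain ⟨hmer, B, hB, hB0, hprod⟩ := hΛ
  have E0 := evK (S := S) (N := N) (α := α) (i := i) (X := X) hα
  have E : EV rq (up F (aK S α)) ((i : ℝ) + 1) := E0.up
  -- the exceptional primes
  have hfin1 : {w : HeightOneSpectrum (𝓞 F) | ¬ ∃ α : Fin N → ℂ, IsFrobenius X i w α ∧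
      ∀ z : ℂ, (B w).eval z = ∏ j, (1 - α j * z)}.Finite := hB
  have hfin2 : {w : HeightOneSpectrum (𝓞 F) | w.under (𝓞 K) ∈ S}.Finite := by
    have h1 : {w : HeightOneSpectrum (𝓞 F) | w.under (𝓞 K) ∈ S} =
        ⋃ v ∈ S, {w : HeightOneSpectrum (𝓞 F) | w.under (𝓞 K) = v} := by
      ext w
      simp
    rw [h1]
    refine Set.Finite.biUnion (Finset.finite_toSet S) fun v _ => ?_
    exact Set.finite_coe_iff.1 (fin_below F v)
  set W : Finset (HeightOneSpectrum (𝓞 F)) := (hfin1.union hfin2).toFinset with hW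
  have hW1 : ∀ w ∉ W, (∃ α : Fin N → ℂ, IsFrobenius X i w α ∧
      ∀ z : ℂ, (B w).eval z = ∏ j, (1 - α j * z)) ∧ w.under (𝓞 K) ∉ S := by
    intro w hw
    rw [hW, Set.Finite.mem_toFinset, Set.mem_union, not_or] at hw
    refine ⟨?_, hw.2⟩
    by_contra h
    exact hw.1 h
  have hBW : ∀ w ∉ W, ∀ z : ℂ, (B w).eval z = ∏ j, (1 - up F (aK S α) w j * z) := by
    intro w hw z
    obtain ⟨⟨α', h1, h2⟩, h3⟩ := hW1 w hw
    rw [h2]
    have h4 : IsFrobenius X i w (up F (aK S α) w) := by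
      have h5 := frob_up (w := w) (hα _ h3)
      have h6 : up F (aK S α) w = fun j => α (w.under (𝓞 K)) j ^ fd K w := by
        funext j
        unfold up
        rw [aK_notMem h3]
      rw [h6]
      exact h5
    have h5 := congrArg (fun s : Multiset ℂ => (s.map fun a => 1 - a * z).prod)
      (frob_unique h1 h4)
    simp only [Multiset.map_map] at h5
    exact h5
  have hci : ((((i : ℝ) + 1 : ℝ)) : ℂ) = (i : ℂ) + 1 := by push_cast; rfl
  have hq : ∀ w : HeightOneSpectrum (𝓞 F), ((rq w : ℝ) : ℂ) = (Ideal.absNorm w.asIdeal : ℂ) := by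
    intro w
    unfold rq nv
    push_cast
    rfl
  have hcount : Countable (HeightOneSpectrum (𝓞 F)) := by
    have h1 : Summable fun w : HeightOneSpectrum (𝓞 F) => rq w ^ (-(2 : ℝ)) :=
      Pool.Agent.H921R2.TatePole.nm_summable (by norm_num)
    have h2 := h1.countable_support
    have h3 : Function.support (fun w : HeightOneSpectrum (𝓞 F) => rq w ^ (-(2 : ℝ))) = Set.univ := by
      ext w
      simp only [Function.mem_support, Set.mem_univ, iff_true]
      exact (Real.rpow_pos_of_pos (rq_pos w) _).ne'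
    rw [h3] at h2
    exact Set.countable_univ_iff.1 h2
  have hcountK : Countable (HeightOneSpectrum (𝓞 K)) := by
    have h1 : Summable fun w : HeightOneSpectrum (𝓞 K) => rq w ^ (-(2 : ℝ)) :=
      Pool.Agent.H921R2.TatePole.nm_summable (by norm_num)
    have h2 := h1.countable_support
    have h3 : Function.support (fun w : HeightOneSpectrum (𝓞 K) => rq w ^ (-(2 : ℝ))) = Set.univ := by
      ext w
      simp only [Function.mem_support, Set.mem_univ, iff_true]
      exact (Real.rpow_pos_of_pos (rq_pos w) _).ne'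
    rw [h3] at h2
    exact Set.countable_univ_iff.1 h2
  obtain ⟨Φ, D, hord⟩ := ev_gd E B hBW (fun w s hs => by rw [hq]; exact hB0 w s hs)
    (F := Λ) (fun s hs => hmer s (by
      rcases hs with h | h
      · left; exact h
      · right; rw [h, hci])) (fun s hs => by
      rw [hprod s (by linarith)]
      refine tprod_congr fun w => ?_
      rw [hq])
  rw [hci] at hord
  refine ⟨⟨1, Φ, one_pos, ⟨inferInstance, E0.fr_nonneg, fun t ht => ?_, fun s hs => ?_,
    D.mer, D.mer0⟩, fun s hs => ?_⟩, fun w hw => ?_⟩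
  · refine Summable.of_nonneg_of_le (fun y => by positivity) (fun y => ?_)
      ((E0.summable (σ := t) (by linarith)).mul_left (Nat.card Gal(M/K) : ℝ))
    unfold cf
    rw [Nat.cast_one, one_mul, abs_mul, mul_assoc]
    refine mul_le_mul_of_nonneg_right ?_ (by positivity)
    have h1 : ((pc F.fixingSubgroup (fpow σ y) : ℚ) : ℝ) = (pc F.fixingSubgroup (fpow σ y) : ℝ) := by
      push_cast; rfl
    rw [h1, abs_of_nonneg (Nat.cast_nonneg _)]
    exact_mod_cast pc_le F.fixingSubgroup (fpow σ y)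
  · rw [D.exp s hs]
    congr 1
    have h1 := ds_pc E0 F Q σ (S := S) (fun v hv j => aK_mem hv j) hp hQ hσ
      (fun v hv Q hQp hQ => hS v hv Q hQp hQ) (s := s) (by linarith)
    rw [← h1.tsum_eq]
    unfold DS
    refine tsum_congr fun y => ?_
    unfold cf tw fpow
    push_cast
    ring
  · have h1 := hord s hs
    unfold oq
    rw [h1]
    push_cast
    ring
  · rw [← hord w hw]
    exact D.ne_top hw

open Classical in
/-- the sums of the blocks -/
theorem blockSum_eq {J : Type} (hS : ∀ v ∉ S, Unramified M v)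
    (Q : HeightOneSpectrum (𝓞 K) → Ideal (𝓞 M)) (σ : HeightOneSpectrum (𝓞 K) → Gal(M/K))
    (hp : ∀ v, (Q v).IsPrime)
    (hQ : ∀ v, (Q v).comap (algebraMap (𝓞 K) (𝓞 M)) = v.asIdeal)
    (hσ : ∀ v, IsFr (nv v) (σ v) (Q v)) {t : Gal(M/K) → J} (ht : ∀ x y, Dv x y → t x = t y) (j : J)
    {y : ℝ} (hy : 0 < y) :
    blockSum S α i t j y =
      AA (cf (cv rq (aK S α) ((i : ℝ) + 1)) (fpow σ) (bl t j)) (fr rq) (Real.log y) := by
  unfold blockSum AA
  refine tsum_congr fun x => ?_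
  have hfr : fr rq x ≤ Real.log y ↔ (Ideal.absNorm x.1.asIdeal : ℝ) ^ (x.2 + 1) ≤ y := by
    have h0 : (0 : ℝ) < (Ideal.absNorm x.1.asIdeal : ℝ) := rq_pos x.1
    have h1 : fr rq x = Real.log ((Ideal.absNorm x.1.asIdeal : ℝ) ^ (x.2 + 1)) := by
      unfold fr
      rw [Real.log_pow]
      push_cast
      rfl
    rw [h1, Real.log_le_log_iff (by positivity) hy]
  by_cases hx : x.1 ∈ S
  · rw [if_neg fun h => h.1 hx]
    have h3 : cf (cv rq (aK S α) ((i : ℝ) + 1)) (fpow σ) (bl t j) x = 0 := by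
      unfold cf cv
      have : ∑ l, aK S α x.1 l ^ (x.2 + 1) = 0 :=
        Finset.sum_eq_zero fun l _ => by rw [aK_mem hx, zero_pow (Nat.succ_ne_zero _)]
      rw [this]
      simp
    rw [h3]
    simp
  · have hcl : FrobPow t j x.1 (x.2 + 1) ↔ t (fpow σ x) = j := by
      constructor
      · rintro ⟨Q', φ', hQp', hQ', hφ', h⟩
        have hQp := hp x.1
        have h2 : (Q x.1).under (𝓞 K) = Q'.under (𝓞 K) := by
          have e1 : (Q x.1).under (𝓞 K) = x.1.asIdeal := hQ x.1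
          have e2 : Q'.under (𝓞 K) = x.1.asIdeal := hQ'
          rw [e1, e2]
        obtain ⟨g, hg⟩ := Algebra.IsInvariant.exists_smul_of_under_eq (𝓞 K) (𝓞 M) Gal(M/K)
          (Q x.1) Q' h2
        have h3 : IsFr (nv x.1) (g * σ x.1 * g⁻¹) Q' := by
          rw [hg]
          exact (hσ x.1).conj g
        have h4 : IsFr (nv x.1) φ' Q' := hφ'
        have h5 : φ' = g * σ x.1 * g⁻¹ := by
          refine eq_of_unr (hS x.1 hx Q' hQp' hQ')
            (h3.smul (by have := two_le_nv x.1; omega)) fun z => ?_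
          have h6 := h3 z
          have h7 := h4 z
          rw [← Ideal.Quotient.mk_eq_mk_iff_sub_mem] at h6 h7 ⊢
          rw [h6, h7]
        rw [← h, h5, conj_pow]
        refine (ht _ _ ⟨g, ?_⟩).symm
        rfl
      · intro h
        exact ⟨Q x.1, σ x.1, hp x.1, hQ x.1, hσ x.1, h⟩
    by_cases h1 : fr rq x ≤ Real.log y
    · rw [if_pos h1]
      by_cases h2 : t (fpow σ x) = j
      · rw [if_pos ⟨hx, hfr.1 h1, hcl.2 h2⟩]
        unfold cf cv bl
        rw [if_pos h2, aK_notMem hx]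
        have h4 : ((rq x.1 ^ ((i : ℝ) + 1)) ^ (x.2 + 1) : ℝ) =
            (Ideal.absNorm x.1.asIdeal : ℝ) ^ ((x.2 + 1) * (i + 1)) := by
          have : ((i : ℝ) + 1) = ((i + 1 : ℕ) : ℝ) := by push_cast; rfl
          rw [this, Real.rpow_natCast, ← pow_mul, mul_comm]
          rfl
        rw [h4]
        push_cast
        ring
      · rw [if_neg fun h => h2 (hcl.1 h.2.2)]
        unfold cf bl
        rw [if_neg h2]
        simp
    · rw [if_neg h1, if_neg fun h => h1 (hfr.2 h.2.1)]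

/-- windows in `y` and in `log y` -/
theorem low_of {ι G : Type} {c L : ι → ℝ} {φ : ι → G} {f : G → ℚ} {A : ℝ → ℝ} {κ : ℝ}
    (hA : ∀ y : ℝ, 0 < y → A y = AA (cf c φ f) L (Real.log y)) (h : BoundedBelow A κ) :
    Low c L φ f κ := by
  obtain ⟨δ, C, h0, h1, hw⟩ := h
  refine ⟨δ, C, h0, h1, ?_⟩
  have h2 : ∃ᶠ Y : ℝ in atTop, ∀ u : ℝ, (1 - δ) * Real.log Y ≤ u → u ≤ Real.log Y →
      -(κ * Real.log u + C) ≤ AA (cf c φ f) L u := by
    refine (hw.and_eventually (eventually_gt_atTop 0)).mono fun Y hY u a b => ?_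
    have h3 := hY.1 (Real.exp u) (by
      rw [Real.rpow_def_of_pos hY.2, Real.exp_le_exp]
      linarith) (by
      rw [← Real.exp_log hY.2, Real.exp_le_exp]
      exact b)
    rw [hA _ (Real.exp_pos u), Real.log_exp] at h3
    linarith
  exact Real.tendsto_log_atTop.frequently
    (p := fun U => ∀ u : ℝ, (1 - δ) * U ≤ u → u ≤ U → -(κ * Real.log u + C) ≤ AA (cf c φ f) L u) h2

theorem upp_of {ι G : Type} {c L : ι → ℝ} {φ : ι → G} {f : G → ℚ} {A : ℝ → ℝ} {κ : ℝ}
    (hA : ∀ y : ℝ, 0 < y → A y = AA (cf c φ f) L (Real.log y)) (h : BoundedAbove A κ) :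
    Upp c L φ f κ := by
  obtain ⟨δ, C, h0, h1, hw⟩ := h
  refine ⟨δ, C, h0, h1, ?_⟩
  have h2 : ∃ᶠ Y : ℝ in atTop, ∀ u : ℝ, (1 - δ) * Real.log Y ≤ u → u ≤ Real.log Y →
      AA (cf c φ f) L u ≤ -(κ * Real.log u) + C := by
    refine (hw.and_eventually (eventually_gt_atTop 0)).mono fun Y hY u a b => ?_
    have h3 := hY.1 (Real.exp u) (by
      rw [Real.rpow_def_of_pos hY.2, Real.exp_le_exp]
      linarith) (by
      rw [← Real.exp_log hY.2, Real.exp_le_exp]
      exact b)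
    rw [hA _ (Real.exp_pos u), Real.log_exp] at h3
    linarith
  exact Real.tendsto_log_atTop.frequently
    (p := fun U => ∀ u : ℝ, (1 - δ) * U ≤ u → u ≤ U → AA (cf c φ f) L u ≤ -(κ * Real.log u) + C) h2

theorem below_or_drops (A : ℝ → ℝ) (κ : ℝ) : BoundedBelow A κ ∨ Drops A κ := by
  by_cases h : BoundedBelow A κ
  · exact Or.inl h
  · right
    intro δ C h0 h1
    by_contra h2
    apply h
    refine ⟨δ, C, h0, h1, ?_⟩
    rw [not_eventually] at h2
    refine h2.mono fun Y hY y a b => ?_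
    by_contra h3
    exact hY ⟨y, a, b, not_le.1 h3⟩

theorem above_or_rises (A : ℝ → ℝ) (κ : ℝ) : BoundedAbove A κ ∨ Rises A κ := by
  by_cases h : BoundedAbove A κ
  · exact Or.inl h
  · right
    intro δ C h0 h1
    by_contra h2
    apply h
    refine ⟨δ, C, h0, h1, ?_⟩
    rw [not_eventually] at h2
    refine h2.mono fun Y hY y a b => ?_
    by_contra h3
    exact hY ⟨y, a, b, not_le.1 h3⟩

end

section
variable {K M : Type} [Field K] [NumberField K] [Field M] [NumberField M] [Algebra K M]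
  [IsGalois K M] {n : ℕ} {X : Set (MvPolynomial (Fin n) (𝓞 K))} {i N : ℕ}
  {S : Finset (HeightOneSpectrum (𝓞 K))} {α : HeightOneSpectrum (𝓞 K) → Fin N → ℂ}

theorem blockMean_eq {G : Type} [Group G] [Fintype G] {J : Type} (t : G → J) (χ : G → ℚ) (j : J) :
    blockMean t χ j = bm t χ j := by
  classical
  unfold blockMean bm
  have h1 : {x : G | t x = j} = ((Finset.univ.filter fun x => t x = j : Finset G) : Set G) := by
    ext x
    simp
  rw [h1, finsum_mem_coe_finset, Finset.sum_filter, div_eq_mul_inv, mul_comm]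

/-- **The main theorem.** -/
theorem main (hα : ∀ v ∉ S, IsFrobenius X i v (α v)) (hS : ∀ v ∉ S, Unramified M v)
    (hcyc : ∀ F : IntermediateField K M, IsCyclic F.fixingSubgroup → ∃ Λ, IsLFunction X i N F Λ)
    {Λ₀ : ℂ → ℂ} (hΛ₀ : IsLFunction X i N (⊥ : IntermediateField K M) Λ₀) :
    ∃ (m₀ : ℤ) (χ : Gal(M/K) → ℚ), meromorphicOrderAt Λ₀ (i + 1) = m₀ ∧
      (∀ σ τ, SameDiv σ τ → χ σ = χ τ) ∧
      (∀ (F : IntermediateField K M) (Λ : ℂ → ℂ), IsLFunction X i N F Λ → ∃ m : ℤ,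
        meromorphicOrderAt Λ (i + 1) = m ∧
          (m : ℚ) = (∑ᶠ σ : F.fixingSubgroup, χ σ) / Nat.card F.fixingSubgroup) ∧
      ∀ (J : Type) [Fintype J] (t : Gal(M/K) → J), (∀ σ τ, SameDiv σ τ → t σ = t τ) →
        (∀ κ : J → ℝ, NoRealPoles i Λ₀ → (∀ j, BoundedBelow (blockSum S α i t j) (κ j)) →
          AllFree X i N t ∧ ∀ j, (blockMean t χ j : ℝ) ≤ κ j) ∧
        (∀ κ : J → ℝ, NoRealZeros i Λ₀ → (∀ j, BoundedAbove (blockSum S α i t j) (κ j)) →
          AllFree X i N t ∧ ∀ j, κ j ≤ (blockMean t χ j : ℝ)) ∧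
        (∀ κ κ' : J → ℝ, (∀ j, BoundedBelow (blockSum S α i t j) (κ j)) →
          (∀ j, BoundedAbove (blockSum S α i t j) (κ' j)) →
          AllFree X i N t ∧ ∀ j, (blockMean t χ j : ℝ) ≤ κ j ∧ κ' j ≤ (blockMean t χ j : ℝ)) ∧
        ∀ (V : Type) [AddCommGroup V] [Module ℚ V] [FiniteDimensional ℚ V]
          (ρ : Representation ℚ Gal(M/K) V),
          (NoRealPoles i Λ₀ → (Module.finrank ℚ (Representation.invariants ρ) : ℤ) ≤ m₀ →
            (AllFree X i N t ∧ AllEqual X i N t ρ) ∨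
            ∃ j, Drops (blockSum S α i t j)
              (blockMean t (fun τ => LinearMap.trace ℚ V (ρ τ)) j)) ∧
          (NoRealZeros i Λ₀ → m₀ ≤ Module.finrank ℚ (Representation.invariants ρ) →
            (AllFree X i N t ∧ AllEqual X i N t ρ) ∨
            ∃ j, Rises (blockSum S α i t j)
              (blockMean t (fun τ => LinearMap.trace ℚ V (ρ τ)) j)) := by
  classical
  have hft : Fintype Gal(M/K) := Fintype.ofFinite _
  -- Frobenius elements
  have hex : ∀ v : HeightOneSpectrum (𝓞 K), ∃ (Q : Ideal (𝓞 M)) (σ : Gal(M/K)), Q.IsPrime ∧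
      Q.comap (algebraMap (𝓞 K) (𝓞 M)) = v.asIdeal ∧ IsFr (nv v) σ Q := by
    intro v
    obtain ⟨Q, hQp, hQ⟩ := Ideal.exists_ideal_over_prime_of_isIntegral_of_isDomain (S := 𝓞 M)
      v.asIdeal (by
        rw [(RingHom.injective_iff_ker_eq_bot _).1 (FaithfulSMul.algebraMap_injective (𝓞 K) (𝓞 M))]
        exact bot_le)
    obtain ⟨σ, hσ⟩ := exists_isFr hQ
    exact ⟨Q, σ, hQp, hQ, hσ⟩
  choose Q σ hp hQ hσ using hex
  have hM : ∀ (F : IntermediateField K M) (Λ : ℂ → ℂ), IsLFunction X i N F Λ →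
      HasOrd (cv rq (aK S α) ((i : ℝ) + 1)) (fr rq) (fpow σ)
        (fun x => (pc F.fixingSubgroup x : ℚ)) (fun w => oq Λ ((i : ℂ) + 1 + w)) ∧
      ∀ w, Rg w → meromorphicOrderAt Λ ((i : ℂ) + 1 + w) ≠ ⊤ := fun F Λ h =>
    ord_field hα hS F h Q σ hp hQ hσ
  have hMc : ∀ g : Gal(M/K), ∃ m, HasOrd (cv rq (aK S α) ((i : ℝ) + 1)) (fr rq) (fpow σ)
      (fun x => (pc (Subgroup.zpowers g) x : ℚ)) m := by
    intro g
    have e : (IntermediateField.fixedField (Subgroup.zpowers g)).fixingSubgroup =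
        Subgroup.zpowers g := IntermediateField.fixingSubgroup_fixedField _
    obtain ⟨Λ, hΛ⟩ := hcyc (IntermediateField.fixedField (Subgroup.zpowers g)) (by
      rw [e]
      infer_instance)
    have h1 := (hM _ Λ hΛ).1
    rw [e] at h1
    exact ⟨_, h1⟩
  obtain ⟨hM₀, htop₀⟩ := hM ⊥ Λ₀ hΛ₀
  rw [IntermediateField.fixingSubgroup_bot] at hM₀
  obtain ⟨N0, Ψ0, -, H0, -⟩ := id hM₀
  obtain ⟨χ, hχ1, hχ2, hχ3⟩ := abs_main H0.cnt H0.hL hMc hM₀
  have hre : ∀ x : ℝ, 0 < x → Rg (x : ℂ) := fun x hx =>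
    Rg.pos (by rw [Complex.ofReal_re]; exact hx)
  have hcx : ∀ x : ℝ, (((i : ℝ) + 1 + x : ℝ) : ℂ) = (i : ℂ) + 1 + x := by
    intro x; push_cast; rfl
  have hcoe : ∀ w : ℂ, Rg w → meromorphicOrderAt Λ₀ ((i : ℂ) + 1 + w) =
      (((meromorphicOrderAt Λ₀ ((i : ℂ) + 1 + w)).untop₀ : ℤ) : WithTop ℤ) := fun w hw =>
    (WithTop.coe_untop₀_of_ne_top (htop₀ w hw)).symm
  have hpoles : NoRealPoles i Λ₀ → ∀ x : ℝ, 0 < x → 0 ≤ oq Λ₀ ((i : ℂ) + 1 + (x : ℂ)) := by
    intro h x hx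
    have h1 := h ((i : ℝ) + 1 + x) (by linarith)
    rw [hcx, hcoe _ (hre x hx)] at h1
    unfold oq
    have h2 : 0 ≤ (meromorphicOrderAt Λ₀ ((i : ℂ) + 1 + x)).untop₀ := by exact_mod_cast h1
    exact_mod_cast h2
  have hzeros : NoRealZeros i Λ₀ → ∀ x : ℝ, 0 < x → oq Λ₀ ((i : ℂ) + 1 + (x : ℂ)) ≤ 0 := by
    intro h x hx
    have h1 := h ((i : ℝ) + 1 + x) (by linarith)
    rw [hcx, hcoe _ (hre x hx)] at h1
    unfold oq
    have h2 : (meromorphicOrderAt Λ₀ ((i : ℂ) + 1 + x)).untop₀ ≤ 0 := by exact_mod_cast h1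
    exact_mod_cast h2
  have hvis : ∀ {J : Type} (t : Gal(M/K) → J) (F : IntermediateField K M), Visible t F →
      Vis t F.fixingSubgroup := fun t F h x y hxy => h x y hxy
  have hfree : ∀ {J : Type} (t : Gal(M/K) → J),
      (∀ (H : Subgroup Gal(M/K)) (m : ℂ → ℚ), Vis t H →
        HasOrd (cv rq (aK S α) ((i : ℝ) + 1)) (fr rq) (fpow σ) (fun x => (pc H x : ℚ)) m →
        ∀ s : ℂ, 0 < s.re → m s = 0) → AllFree X i N t := by
    intro J t h F Λ hv hΛ s hs
    obtain ⟨h0, htop⟩ := hM F Λ hΛ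
    have hs' : 0 < (s - ((i : ℂ) + 1)).re := by
      have : ((i : ℂ) + 1).re = (i : ℝ) + 1 := by simp
      rw [Complex.sub_re, this]
      linarith
    have h1 := h F.fixingSubgroup _ (hvis t F hv) h0 (s - ((i : ℂ) + 1)) hs'
    have h2 := WithTop.coe_untop₀_of_ne_top (htop _ (Rg.pos hs'))
    rw [add_sub_cancel] at h1 h2
    rw [← h2]
    unfold oq at h1
    have h3 : (meromorphicOrderAt Λ s).untop₀ = 0 := by exact_mod_cast h1
    rw [h3]
    rfl
  have hmean : ∀ (F : IntermediateField K M) (Λ : ℂ → ℂ), IsLFunction X i N F Λ → ∃ m : ℤ,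
      meromorphicOrderAt Λ ((i : ℂ) + 1) = m ∧ (m : ℚ) = (Nat.card Gal(M/K) : ℚ)⁻¹ *
        ∑ x : Gal(M/K), (pc F.fixingSubgroup x : ℚ) * χ x := by
    intro F Λ hΛ
    obtain ⟨h0, htop⟩ := hM F Λ hΛ
    have h1 := htop 0 Rg.zero
    rw [add_zero] at h1
    refine ⟨(meromorphicOrderAt Λ ((i : ℂ) + 1)).untop₀,
      (WithTop.coe_untop₀_of_ne_top h1).symm, ?_⟩
    have h2 := hχ2 _ _ h0
    simp only [add_zero] at h2
    exact h2
  have hconj : ∀ x y : Gal(M/K), χ (y * x * y⁻¹) = χ x := by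
    intro x y
    refine hχ1 _ _ ⟨y, rfl⟩
  obtain ⟨m₀, hm₀, hm₀'⟩ := hmean ⊥ Λ₀ hΛ₀
  refine ⟨m₀, χ, hm₀, fun σ τ h => hχ1 σ τ h, fun F Λ hΛ => ?_, fun J _ t ht => ?_⟩
  · obtain ⟨m, h1, h2⟩ := hmean F Λ hΛ
    refine ⟨m, h1, ?_⟩
    rw [h2, ← Pool.Agent.Y691.mean_eq F.fixingSubgroup χ hconj, finsum_eq_sum_of_fintype,
      div_eq_mul_inv, mul_comm]
  have hA : ∀ (j : J) (y : ℝ), 0 < y → blockSum S α i t j y =
      AA (cf (cv rq (aK S α) ((i : ℝ) + 1)) (fpow σ) (bl t j)) (fr rq) (Real.log y) :=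
    fun j y hy => blockSum_eq hS Q σ hp hQ hσ (fun x y h => ht x y h) j hy
  have c1 : ∀ κ : J → ℝ, NoRealPoles i Λ₀ → (∀ j, BoundedBelow (blockSum S α i t j) (κ j)) →
      AllFree X i N t ∧ ∀ j, (blockMean t χ j : ℝ) ≤ κ j := by
    intro κ h1 h2
    obtain ⟨a1, a2⟩ := (hχ3 J t ht κ).1 (hpoles h1) fun j => low_of (hA j) (h2 j)
    exact ⟨hfree t a1, fun j => by rw [blockMean_eq]; exact a2 j⟩
  have c2 : ∀ κ : J → ℝ, NoRealZeros i Λ₀ → (∀ j, BoundedAbove (blockSum S α i t j) (κ j)) →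
      AllFree X i N t ∧ ∀ j, κ j ≤ (blockMean t χ j : ℝ) := by
    intro κ h1 h2
    obtain ⟨a1, a2⟩ := (hχ3 J t ht κ).2.1 (hzeros h1) fun j => upp_of (hA j) (h2 j)
    exact ⟨hfree t a1, fun j => by rw [blockMean_eq]; exact a2 j⟩
  refine ⟨c1, c2, fun κ κ' h1 h2 => ?_, fun V _ _ _ ρ => ?_⟩
  · obtain ⟨a1, a2⟩ := (hχ3 J t ht κ).2.2 κ' (fun j => low_of (hA j) (h1 j))
      fun j => upp_of (hA j) (h2 j)
    exact ⟨hfree t a1, fun j => by rw [blockMean_eq]; exact a2 j⟩
  · set ψ : Gal(M/K) → ℚ := fun τ => LinearMap.trace ℚ V (ρ τ) with hψ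
    have hdim : ∀ F : IntermediateField K M, (Module.finrank ℚ
        (Representation.invariants (ρ.comp F.fixingSubgroup.subtype)) : ℚ) =
        (Nat.card Gal(M/K) : ℚ)⁻¹ * ∑ x : Gal(M/K), (pc F.fixingSubgroup x : ℚ) * ψ x := fun F =>
      dimInv_mean ρ F.fixingSubgroup
    have htopinv : (Representation.invariants (ρ.comp (⊤ : Subgroup Gal(M/K)).subtype)) =
        Representation.invariants ρ := by
      ext x
      simp only [Representation.mem_invariants]
      constructor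
      · intro h g
        exact h ⟨g, trivial⟩
      · intro h g
        exact h g.1
    have hdim0 : (Module.finrank ℚ (Representation.invariants ρ) : ℚ) =
        (Nat.card Gal(M/K) : ℚ)⁻¹ * ∑ x : Gal(M/K), ψ x := by
      have h1 := dimInv_mean ρ (⊤ : Subgroup Gal(M/K))
      unfold dimInv at h1
      rw [htopinv] at h1
      rw [h1]
      congr 1
      refine Finset.sum_congr rfl fun x _ => ?_
      rw [pc_top]
      simp [hψ]
    have hm0 : (m₀ : ℚ) = (Nat.card Gal(M/K) : ℚ)⁻¹ * ∑ x : Gal(M/K), χ x := by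
      rw [hm₀', IntermediateField.fixingSubgroup_bot]
      congr 1
      refine Finset.sum_congr rfl fun x _ => ?_
      rw [pc_top]
      simp
    constructor
    · intro h1 h2
      by_cases hall : ∀ j, BoundedBelow (blockSum S α i t j) (blockMean t ψ j)
      · left
        obtain ⟨a1, a2⟩ := c1 _ h1 hall
        refine ⟨a1, fun F Λ hv hΛ => ?_⟩
        obtain ⟨m, hm, hm'⟩ := hmean F Λ hΛ
        have h3 : ∀ j, bm t χ j ≤ bm t ψ j := by
          intro j
          rw [← blockMean_eq, ← blockMean_eq]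
          exact_mod_cast a2 j
        have h4 := eq_of_le h3 (by
          rw [← hdim0, ← hm0]
          exact_mod_cast h2) (hvis t F hv)
        rw [← hdim, ← hm'] at h4
        have h5 : m = (Module.finrank ℚ
          (Representation.invariants (ρ.comp F.fixingSubgroup.subtype)) : ℤ) := by exact_mod_cast h4
        rw [hm, h5]
      · right
        push Not at hall
        obtain ⟨j, hj⟩ := hall
        exact ⟨j, (below_or_drops _ _).resolve_left hj⟩
    · intro h1 h2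
      by_cases hall : ∀ j, BoundedAbove (blockSum S α i t j) (blockMean t ψ j)
      · left
        obtain ⟨a1, a2⟩ := c2 _ h1 hall
        refine ⟨a1, fun F Λ hv hΛ => ?_⟩
        obtain ⟨m, hm, hm'⟩ := hmean F Λ hΛ
        have h3 : ∀ j, bm t ψ j ≤ bm t χ j := by
          intro j
          rw [← blockMean_eq, ← blockMean_eq]
          exact_mod_cast a2 j
        have h4 := eq_of_le h3 (by
          rw [← hdim0, ← hm0]
          exact_mod_cast h2) (hvis t F hv)
        rw [← hdim, ← hm'] at h4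
        have h5 : m = (Module.finrank ℚ
          (Representation.invariants (ρ.comp F.fixingSubgroup.subtype)) : ℤ) := by
          exact_mod_cast h4.symm
        rw [hm, h5]
      · right
        push Not at hall
        obtain ⟨j, hj⟩ := hall
        exact ⟨j, (above_or_rises _ _).resolve_left hj⟩

end

end Pool.Agent.H81.FC
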